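import Mathlib

/-!
# Entropy of finite families of random variables (coordinates), helper61

`p : (ι → V) → ℝ` is a probability on the configurations.  `mg p A ω` is the probability that the
coordinates in `A` are those of `ω`, `Hh p A` is the Shannon entropy of the coordinates in `A`.

* `submod`: `Hh p (A ∪ B) + Hh p C ≤ Hh p A + Hh p B` for `C ⊆ A`, `C ⊆ B`;
* `hh_le_log`: the entropy of a pair of coordinates with values in `S` is at most `log S.card`;
* `res`: the law obtained by resampling the coordinates in `B` independently of those in `A`, given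
  those in `A ∩ B`; it has the same marginals on `A` and `B` and entropy `H A + H B - H (A ∩ B)`;
* `exists_markov`: a law of maximal entropy under constraints on marginals of pairs has the global
  Markov property.
-/

namespace Pool.Agent.Helper61_ENT

open Finset
open scoped Classical

variable {ι V : Type} [Fintype ι] [DecidableEq ι] [Fintype V]

/-- agreement on `A` -/
def Ag (A : Finset ι) (ω ω' : ι → V) : Prop := ∀ i ∈ A, ω i = ω' i

theorem Ag.symm {A : Finset ι} {ω ω' : ι → V} (h : Ag A ω ω') : Ag A ω' ω :=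
  fun i hi => (h i hi).symm

theorem Ag.trans {A : Finset ι} {ω ω' ω'' : ι → V} (h : Ag A ω ω') (h' : Ag A ω' ω'') :
    Ag A ω ω'' := fun i hi => (h i hi).trans (h' i hi)

theorem Ag.refl (A : Finset ι) (ω : ι → V) : Ag A ω ω := fun _ _ => rfl

theorem Ag.mono {A B : Finset ι} (hAB : A ⊆ B) {ω ω' : ι → V} (h : Ag B ω ω') : Ag A ω ω' :=
  fun i hi => h i (hAB hi)

/-- the class of `ω` -/
noncomputable def cls (A : Finset ι) (ω : ι → V) : Finset (ι → V) := univ.filter fun ω' => Ag A ω' ω

theorem mem_cls {A : Finset ι} {ω ω' : ι → V} : ω' ∈ cls A ω ↔ Ag A ω' ω := by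
  simp [cls]

theorem cls_eq {A : Finset ι} {ω ω' : ι → V} (h : Ag A ω ω') : cls A ω = cls A ω' := by
  ext x
  rw [mem_cls, mem_cls]
  exact ⟨fun h' => h'.trans h, fun h' => h'.trans h.symm⟩

/-- the probability of the class of `ω` -/
noncomputable def mg (p : (ι → V) → ℝ) (A : Finset ι) (ω : ι → V) : ℝ := ∑ ω' ∈ cls A ω, p ω'

theorem mg_eq {p : (ι → V) → ℝ} {A : Finset ι} {ω ω' : ι → V} (h : Ag A ω ω') :
    mg p A ω = mg p A ω' := by
  unfold mg
  rw [cls_eq h]

theorem le_mg {p : (ι → V) → ℝ} (hp : ∀ ω, 0 ≤ p ω) (A : Finset ι) (ω : ι → V) :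
    p ω ≤ mg p A ω :=
  single_le_sum (f := p) (fun ω _ => hp ω) (mem_cls.mpr (Ag.refl A ω))

theorem mg_nonneg {p : (ι → V) → ℝ} (hp : ∀ ω, 0 ≤ p ω) (A : Finset ι) (ω : ι → V) :
    0 ≤ mg p A ω := sum_nonneg (fun ω _ => hp ω)

theorem mg_pos {p : (ι → V) → ℝ} (hp : ∀ ω, 0 ≤ p ω) (A : Finset ι) {ω : ι → V} (h : 0 < p ω) :
    0 < mg p A ω := lt_of_lt_of_le h (le_mg hp A ω)

theorem mg_univ (p : (ι → V) → ℝ) (ω : ι → V) : mg p univ ω = p ω := by
  unfold mg
  have h : cls univ ω = {ω} := by
    ext x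
    rw [mem_cls, mem_singleton]
    constructor
    · intro h
      funext i
      exact h i (mem_univ i)
    · rintro rfl
      exact Ag.refl _ _
  rw [h, sum_singleton]

theorem mg_anti {p : (ι → V) → ℝ} (hp : ∀ ω, 0 ≤ p ω) {A B : Finset ι} (h : A ⊆ B)
    (ω : ι → V) : mg p B ω ≤ mg p A ω := by
  unfold mg
  apply sum_le_sum_of_subset_of_nonneg
  · intro x hx
    rw [mem_cls] at hx ⊢
    exact hx.mono h
  · intro x _ _
    exact hp x

/-- the entropy of the coordinates in `A` -/
noncomputable def Hh (p : (ι → V) → ℝ) (A : Finset ι) : ℝ := - ∑ ω, p ω * Real.log (mg p A ω)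

theorem hh_univ (p : (ι → V) → ℝ) : Hh p univ = ∑ ω, Real.negMulLog (p ω) := by
  unfold Hh
  rw [← sum_neg_distrib]
  apply sum_congr rfl
  intro ω _
  rw [mg_univ, Real.negMulLog]
  ring

/-- sums over the classes: a function of the coordinates in `A` has the same expectation for laws
with the same marginal on `A` -/
theorem sum_eq_of_mg {p q : (ι → V) → ℝ} {A : Finset ι} (h : ∀ ω, mg p A ω = mg q A ω)
    {G : (ι → V) → ℝ} (hG : ∀ ω ω', Ag A ω ω' → G ω = G ω') :
    ∑ ω, p ω * G ω = ∑ ω, q ω * G ω := by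
  let r : (ι → V) → (A → V) := fun ω i => ω i
  rw [← sum_fiberwise univ r (fun ω => p ω * G ω), ← sum_fiberwise univ r (fun ω => q ω * G ω)]
  apply sum_congr rfl
  intro x _
  by_cases hx : ∃ ω, r ω = x
  · obtain ⟨ω, rfl⟩ := hx
    have hf : (univ.filter fun ω' => r ω' = r ω) = cls A ω := by
      ext ω'
      rw [mem_cls, mem_filter]
      constructor
      · rintro ⟨-, h1⟩ i hi
        exact congrFun h1 ⟨i, hi⟩
      · intro h1
        refine ⟨mem_univ _, ?_⟩
        funext i
        exact h1 i.1 i.2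
    rw [hf]
    have e1 : ∀ s : (ι → V) → ℝ, ∑ ω' ∈ cls A ω, s ω' * G ω' = mg s A ω * G ω := by
      intro s
      unfold mg
      rw [sum_mul]
      apply sum_congr rfl
      intro ω' hω'
      rw [hG ω' ω (mem_cls.mp hω')]
    rw [e1, e1, h]
  · have hf : (univ.filter fun ω' => r ω' = x) = ∅ := by
      apply filter_eq_empty_iff.mpr
      intro ω _ h1
      exact hx ⟨ω, h1⟩
    rw [hf, sum_empty, sum_empty]

theorem mg_of_mg {p q : (ι → V) → ℝ} {A D : Finset ι} (h : ∀ ω, mg p A ω = mg q A ω)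
    (hD : D ⊆ A) (ω : ι → V) : mg p D ω = mg q D ω := by
  have e1 : ∀ s : (ι → V) → ℝ, mg s D ω = ∑ ω', s ω' * (if Ag D ω' ω then 1 else 0) := by
    intro s
    unfold mg cls
    rw [sum_filter]
    apply sum_congr rfl
    intro x _
    by_cases hx : Ag D x ω
    · simp [hx]
    · simp [hx]
  rw [e1, e1]
  apply sum_eq_of_mg h
  intro ω1 ω2 h12
  have h3 : Ag D ω1 ω ↔ Ag D ω2 ω :=
    ⟨fun h4 => (h12.mono hD).symm.trans h4, fun h4 => (h12.mono hD).trans h4⟩
  by_cases h5 : Ag D ω1 ω
  · rw [if_pos h5, if_pos (h3.mp h5)]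
  · rw [if_neg h5, if_neg (fun h6 => h5 (h3.mpr h6))]

theorem sum_of_mg {p q : (ι → V) → ℝ} {A : Finset ι} (h : ∀ ω, mg p A ω = mg q A ω) :
    ∑ ω, p ω = ∑ ω, q ω := by
  have := sum_eq_of_mg h (G := fun _ => 1) (fun _ _ _ => rfl)
  simpa using this

/-- the key estimate for the submodularity -/
theorem cmi_aux {p : (ι → V) → ℝ} (hp : ∀ ω, 0 ≤ p ω) (A B C : Finset ι) (hA : C ⊆ A)
    (hB : C ⊆ B) : ∑ ω, p ω * (mg p A ω * mg p B ω / (mg p (A ∪ B) ω * mg p C ω)) ≤ ∑ ω, p ω := by
  have hcl : ∀ a b ω : ι → V, (Ag A ω a ∧ Ag B ω b) → ∀ ω', (Ag A ω' a ∧ Ag B ω' b) ↔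
      Ag (A ∪ B) ω' ω := by
    intro a b ω ⟨h1, h2⟩ ω'
    constructor
    · rintro ⟨h3, h4⟩ i hi
      rcases mem_union.mp hi with h5 | h5
      · rw [h3 i h5, h1 i h5]
      · rw [h4 i h5, h2 i h5]
    · intro h3
      exact ⟨(h3.mono subset_union_left).trans h1, (h3.mono subset_union_right).trans h2⟩
  have step1 : ∀ ω, p ω * (mg p A ω * mg p B ω / (mg p (A ∪ B) ω * mg p C ω)) =
      ∑ a, ∑ b, (if Ag A ω a ∧ Ag B ω b then
        p a * p b * (p ω / (mg p (A ∪ B) ω * mg p C ω)) else 0) := by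
    intro ω
    have e1 : mg p A ω = ∑ a, if Ag A ω a then p a else 0 := by
      unfold mg cls
      rw [sum_filter]
      apply sum_congr rfl
      intro a _
      have : Ag A a ω ↔ Ag A ω a := ⟨Ag.symm, Ag.symm⟩
      simp only [this]
    have e2 : mg p B ω = ∑ b, if Ag B ω b then p b else 0 := by
      unfold mg cls
      rw [sum_filter]
      apply sum_congr rfl
      intro b _
      have : Ag B b ω ↔ Ag B ω b := ⟨Ag.symm, Ag.symm⟩
      simp only [this]
    have e3 : p ω * (mg p A ω * mg p B ω / (mg p (A ∪ B) ω * mg p C ω)) =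
        mg p A ω * mg p B ω * (p ω / (mg p (A ∪ B) ω * mg p C ω)) := by ring
    rw [e3]
    nth_rewrite 1 [e1]
    nth_rewrite 1 [e2]
    rw [sum_mul_sum, sum_mul]
    apply sum_congr rfl
    intro a _
    rw [sum_mul]
    apply sum_congr rfl
    intro b _
    by_cases h1 : Ag A ω a
    · by_cases h2 : Ag B ω b
      · simp [h1, h2]
      · simp [h2]
    · simp [h1]
  calc ∑ ω, p ω * (mg p A ω * mg p B ω / (mg p (A ∪ B) ω * mg p C ω))
      = ∑ ω, ∑ a, ∑ b, (if Ag A ω a ∧ Ag B ω b then
        p a * p b * (p ω / (mg p (A ∪ B) ω * mg p C ω)) else 0) :=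
        sum_congr rfl (fun ω _ => step1 ω)
    _ = ∑ a, ∑ b, ∑ ω, (if Ag A ω a ∧ Ag B ω b then
        p a * p b * (p ω / (mg p (A ∪ B) ω * mg p C ω)) else 0) := by
        rw [sum_comm]
        apply sum_congr rfl
        intro a _
        rw [sum_comm]
    _ ≤ ∑ a, ∑ b, (if Ag C b a then p a * p b / mg p C a else 0) := by
        apply sum_le_sum
        intro a _
        apply sum_le_sum
        intro b _
        have hab : 0 ≤ p a * p b := mul_nonneg (hp a) (hp b)
        by_cases hω : ∃ ω, (Ag A ω a ∧ Ag B ω b) ∧ 0 < p ω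
        · obtain ⟨ω, hω1, hω2⟩ := hω
          have hC : Ag C b a := (hω1.2.mono hB).symm.trans (hω1.1.mono hA)
          rw [if_pos hC]
          have e1 : ∀ ω', (if Ag A ω' a ∧ Ag B ω' b then
              p a * p b * (p ω' / (mg p (A ∪ B) ω' * mg p C ω')) else 0) =
              (if Ag (A ∪ B) ω' ω then
                p a * p b / (mg p (A ∪ B) ω * mg p C a) * p ω' else 0) := by
            intro ω'
            by_cases h1 : Ag (A ∪ B) ω' ω
            · have h2 := (hcl a b ω hω1 ω').mpr h1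
              rw [if_pos h2, if_pos h1, mg_eq h1, mg_eq (h2.1.mono hA)]
              ring
            · have h2 : ¬ (Ag A ω' a ∧ Ag B ω' b) := fun h3 => h1 ((hcl a b ω hω1 ω').mp h3)
              rw [if_neg h2, if_neg h1]
          rw [sum_congr rfl (fun ω' _ => e1 ω'), ← sum_filter, ← mul_sum]
          have e2 : ∑ ω' ∈ univ.filter (fun ω' => Ag (A ∪ B) ω' ω), p ω' = mg p (A ∪ B) ω := rfl
          rw [e2]
          have h3 : 0 < mg p (A ∪ B) ω := mg_pos hp _ hω2
          have h4 : 0 < mg p C a := by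
            rw [← mg_eq (hω1.1.mono hA)]
            exact mg_pos hp _ hω2
          apply le_of_eq
          field_simp
        · have e1 : ∀ ω', (if Ag A ω' a ∧ Ag B ω' b then
              p a * p b * (p ω' / (mg p (A ∪ B) ω' * mg p C ω')) else 0) = 0 := by
            intro ω'
            by_cases h1 : Ag A ω' a ∧ Ag B ω' b
            · have h2 : p ω' = 0 := by
                by_contra h3
                exact hω ⟨ω', h1, lt_of_le_of_ne (hp ω') (Ne.symm h3)⟩
              rw [if_pos h1, h2]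
              simp
            · rw [if_neg h1]
          rw [sum_congr rfl (fun ω' _ => e1 ω'), sum_const_zero]
          by_cases hC : Ag C b a
          · rw [if_pos hC]
            exact div_nonneg hab (mg_nonneg hp _ _)
          · rw [if_neg hC]
    _ ≤ ∑ a, p a := by
        apply sum_le_sum
        intro a _
        rw [← sum_filter]
        have e1 : ∑ b ∈ univ.filter (fun b => Ag C b a), p a * p b / mg p C a =
            p a * (mg p C a / mg p C a) := by
          have e2 : ∀ b, p a * p b / mg p C a = p a / mg p C a * p b := fun b => by ring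
          rw [sum_congr rfl (fun b _ => e2 b), ← mul_sum]
          have e3 : ∑ b ∈ univ.filter (fun b => Ag C b a), p b = mg p C a := rfl
          rw [e3]
          ring
        rw [e1]
        calc p a * (mg p C a / mg p C a) ≤ p a * 1 :=
              mul_le_mul_of_nonneg_left (div_self_le_one _) (hp a)
          _ = p a := mul_one _

/-- submodularity of the entropy -/
theorem submod {p : (ι → V) → ℝ} (hp : ∀ ω, 0 ≤ p ω) (A B C : Finset ι) (hA : C ⊆ A)
    (hB : C ⊆ B) : Hh p (A ∪ B) + Hh p C ≤ Hh p A + Hh p B := by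
  have h1 := cmi_aux hp A B C hA hB
  have h2 : ∑ ω, p ω * (Real.log (mg p A ω) + Real.log (mg p B ω) -
      Real.log (mg p (A ∪ B) ω) - Real.log (mg p C ω)) ≤
      ∑ ω, (p ω * (mg p A ω * mg p B ω / (mg p (A ∪ B) ω * mg p C ω)) - p ω) := by
    apply sum_le_sum
    intro ω _
    rcases eq_or_lt_of_le (hp ω) with h0 | h0
    · rw [← h0]
      simp
    · have a1 := mg_pos hp A h0
      have a2 := mg_pos hp B h0
      have a3 := mg_pos hp (A ∪ B) h0
      have a4 := mg_pos hp C h0
      have e1 : Real.log (mg p A ω) + Real.log (mg p B ω) -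
          Real.log (mg p (A ∪ B) ω) - Real.log (mg p C ω) =
          Real.log (mg p A ω * mg p B ω / (mg p (A ∪ B) ω * mg p C ω)) := by
        rw [Real.log_div (mul_pos a1 a2).ne' (mul_pos a3 a4).ne', Real.log_mul a1.ne' a2.ne',
          Real.log_mul a3.ne' a4.ne']
        ring
      rw [e1]
      have e2 := Real.log_le_sub_one_of_pos
        (div_pos (mul_pos a1 a2) (mul_pos a3 a4))
      have e3 := mul_le_mul_of_nonneg_left e2 h0.le
      linarith
  rw [sum_sub_distrib] at h2
  have e3 : ∑ ω, p ω * (Real.log (mg p A ω) + Real.log (mg p B ω) -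
      Real.log (mg p (A ∪ B) ω) - Real.log (mg p C ω)) =
      -Hh p A - Hh p B + Hh p (A ∪ B) + Hh p C := by
    unfold Hh
    rw [neg_neg]
    rw [← sum_neg_distrib, ← sum_neg_distrib, ← sum_neg_distrib]
    rw [← sum_sub_distrib, ← sum_add_distrib, ← sum_add_distrib]
    apply sum_congr rfl
    intro ω _
    ring
  linarith

theorem hh_mono {p : (ι → V) → ℝ} (hp : ∀ ω, 0 ≤ p ω) {A B : Finset ι} (h : A ⊆ B) :
    Hh p A ≤ Hh p B := by
  have h1 := submod hp B B A h h
  rw [union_self] at h1
  linarith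

/-- the entropy of the pair `(ω i, ω j)` -/
theorem hh_le_log {p : (ι → V) → ℝ} (hp : ∀ ω, 0 ≤ p ω) (hs : ∑ ω, p ω = 1) (i j : ι)
    (S : Finset (V × V)) (hS : ∀ ω, 0 < p ω → (ω i, ω j) ∈ S) :
    Hh p {i, j} ≤ Real.log S.card := by
  have hne : 0 < S.card := by
    rw [card_pos]
    by_contra hc
    rw [not_nonempty_iff_eq_empty] at hc
    have h0 : ∀ ω, p ω = 0 := by
      intro ω
      by_contra h1
      have := hS ω (lt_of_le_of_ne (hp ω) (Ne.symm h1))
      rw [hc] at this
      exact absurd this (notMem_empty _)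
    rw [sum_congr rfl (fun ω _ => h0 ω), sum_const_zero] at hs
    norm_num at hs
  have hSp : (0 : ℝ) < S.card := by exact_mod_cast hne
  have hcls : ∀ ω ω' : ι → V, Ag {i, j} ω' ω ↔ ((ω' i, ω' j) : V × V) = (ω i, ω j) := by
    intro ω ω'
    constructor
    · intro h
      rw [h i (by simp), h j (by simp)]
    · intro h k hk
      rw [Prod.mk.injEq] at h
      rcases mem_insert.mp hk with rfl | h1
      · exact h.1
      · rw [mem_singleton] at h1
        rw [h1]
        exact h.2
  have h1 : ∑ ω, p ω * (1 / (S.card * mg p {i, j} ω)) ≤ 1 := by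
    rw [← sum_fiberwise univ (fun ω : ι → V => (ω i, ω j))
      (fun ω => p ω * (1 / (S.card * mg p {i, j} ω)))]
    have h2 : ∀ x : V × V, ∑ ω ∈ univ.filter (fun ω : ι → V => (ω i, ω j) = x),
        p ω * (1 / (S.card * mg p {i, j} ω)) ≤ if x ∈ S then 1 / (S.card : ℝ) else 0 := by
      intro x
      by_cases hx : ∃ ω, (ω i, ω j) = x ∧ 0 < p ω
      · obtain ⟨ω, rfl, hω⟩ := hx
        rw [if_pos (hS ω hω)]
        have h3 : (univ.filter fun ω' : ι → V => (ω' i, ω' j) = (ω i, ω j)) = cls {i, j} ω := by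
          ext ω'
          rw [mem_cls, mem_filter, hcls]
          simp
        rw [h3]
        have h4 : ∑ ω' ∈ cls {i, j} ω, p ω' * (1 / (S.card * mg p {i, j} ω')) =
            mg p {i, j} ω * (1 / (S.card * mg p {i, j} ω)) := by
          have h7 : mg p {i, j} ω = ∑ ω' ∈ cls {i, j} ω, p ω' := rfl
          calc ∑ ω' ∈ cls {i, j} ω, p ω' * (1 / (S.card * mg p {i, j} ω'))
              = ∑ ω' ∈ cls {i, j} ω, p ω' * (1 / (S.card * mg p {i, j} ω)) := by
                apply sum_congr rfl
                intro ω' hω'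
                rw [mg_eq (mem_cls.mp hω')]
            _ = (∑ ω' ∈ cls {i, j} ω, p ω') * (1 / (S.card * mg p {i, j} ω)) := by
                rw [sum_mul]
            _ = mg p {i, j} ω * (1 / (S.card * mg p {i, j} ω)) := by rw [← h7]
        rw [h4]
        have h5 := mg_pos hp {i, j} hω
        apply le_of_eq
        field_simp
      · have h3 : ∑ ω ∈ univ.filter (fun ω : ι → V => (ω i, ω j) = x),
            p ω * (1 / (S.card * mg p {i, j} ω)) = 0 := by
          apply sum_eq_zero
          intro ω hω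
          have h4 : p ω = 0 := by
            by_contra h5
            exact hx ⟨ω, (mem_filter.mp hω).2, lt_of_le_of_ne (hp ω) (Ne.symm h5)⟩
          rw [h4, zero_mul]
        rw [h3]
        split_ifs
        · positivity
        · exact le_rfl
    calc ∑ x : V × V, ∑ ω ∈ univ.filter (fun ω : ι → V => (ω i, ω j) = x),
          p ω * (1 / (S.card * mg p {i, j} ω))
        ≤ ∑ x : V × V, if x ∈ S then 1 / (S.card : ℝ) else 0 := sum_le_sum (fun x _ => h2 x)
      _ = ∑ x ∈ univ.filter (fun x : V × V => x ∈ S), 1 / (S.card : ℝ) := by rw [sum_filter]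
      _ = 1 := by
          have h6 : (univ.filter fun x : V × V => x ∈ S) = S := by
            ext x
            simp
          rw [h6, sum_const, nsmul_eq_mul]
          field_simp
  have h2 : ∑ ω, p ω * (-Real.log (S.card) - Real.log (mg p {i, j} ω)) ≤
      ∑ ω, (p ω * (1 / (S.card * mg p {i, j} ω)) - p ω) := by
    apply sum_le_sum
    intro ω _
    rcases eq_or_lt_of_le (hp ω) with h0 | h0
    · rw [← h0]
      simp
    · have a1 := mg_pos hp {i, j} h0
      have e1 : -Real.log (S.card) - Real.log (mg p {i, j} ω) =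
          Real.log (1 / (S.card * mg p {i, j} ω)) := by
        rw [one_div, Real.log_inv, Real.log_mul hSp.ne' a1.ne']
        ring
      rw [e1]
      have e2 := Real.log_le_sub_one_of_pos
        (show 0 < 1 / (S.card * mg p {i, j} ω) by positivity)
      have e3 := mul_le_mul_of_nonneg_left e2 h0.le
      linarith
  rw [sum_sub_distrib, hs] at h2
  have e3 : ∑ ω, p ω * (-Real.log (S.card) - Real.log (mg p {i, j} ω)) =
      -Real.log (S.card) + Hh p {i, j} := by
    unfold Hh
    have e4 : ∀ ω, p ω * (-Real.log (S.card) - Real.log (mg p {i, j} ω)) =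
        p ω * (-Real.log (S.card)) - p ω * Real.log (mg p {i, j} ω) := fun ω => by ring
    rw [sum_congr rfl (fun ω _ => e4 ω), sum_sub_distrib, ← sum_mul, hs]
    ring
  linarith

/-- the entropy of a uniform marginal -/
theorem hh_uniform {p : (ι → V) → ℝ} (hs : ∑ ω, p ω = 1) {A : Finset ι} {m : ℝ}
    (h : ∀ ω, p ω ≠ 0 → mg p A ω = 1 / m) : Hh p A = Real.log m := by
  unfold Hh
  have h1 : ∀ ω, p ω * Real.log (mg p A ω) = p ω * (-Real.log m) := by
    intro ω
    by_cases h0 : p ω = 0
    · rw [h0]; ring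
    · rw [h ω h0, one_div, Real.log_inv]
  rw [sum_congr rfl (fun ω _ => h1 ω), ← sum_mul, hs]
  ring

/-! ## Resampling -/

/-- conditionally independent coupling of the marginals on `A` and `B` -/
noncomputable def res (p : (ι → V) → ℝ) (A B : Finset ι) (ω : ι → V) : ℝ :=
  mg p A ω * mg p B ω / mg p (A ∩ B) ω

theorem res_nonneg {p : (ι → V) → ℝ} (hp : ∀ ω, 0 ≤ p ω) (A B : Finset ι) (ω : ι → V) :
    0 ≤ res p A B ω :=
  div_nonneg (mul_nonneg (mg_nonneg hp _ _) (mg_nonneg hp _ _)) (mg_nonneg hp _ _)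

theorem res_comm (p : (ι → V) → ℝ) (A B : Finset ι) : res p A B = res p B A := by
  funext ω
  unfold res
  rw [inter_comm, mul_comm (mg p A ω)]

theorem sum_mg {p : (ι → V) → ℝ} {A B : Finset ι} (hAB : A ∪ B = univ) (ω : ι → V) :
    ∑ ω' ∈ cls A ω, mg p B ω' = mg p (A ∩ B) ω := by
  have h1 : ∀ ω', mg p B ω' = ∑ b, if Ag B ω' b then p b else 0 := by
    intro ω'
    unfold mg cls
    rw [sum_filter]
    apply sum_congr rfl
    intro b _
    have : Ag B b ω' ↔ Ag B ω' b := ⟨Ag.symm, Ag.symm⟩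
    simp only [this]
  rw [sum_congr rfl (fun ω' _ => h1 ω'), sum_comm]
  have h2 : ∀ b, ∑ ω' ∈ cls A ω, (if Ag B ω' b then p b else 0) =
      if Ag (A ∩ B) b ω then p b else 0 := by
    intro b
    by_cases hb : Ag (A ∩ B) b ω
    · rw [if_pos hb]
      let w : ι → V := fun i => if i ∈ A then ω i else b i
      have hwA : Ag A w ω := fun i hi => by simp [w, hi]
      have hwB : Ag B w b := by
        intro i hi
        by_cases hiA : i ∈ A
        · simp only [w, hiA, if_true]
          exact (hb i (mem_inter.mpr ⟨hiA, hi⟩)).symm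
        · simp [w, hiA]
      rw [sum_eq_single w]
      · rw [if_pos hwB]
      · intro w' hw' hne
        have h3 : ¬ Ag B w' b := by
          intro h4
          apply hne
          funext i
          have hi : i ∈ A ∪ B := by rw [hAB]; exact mem_univ i
          rcases mem_union.mp hi with h5 | h5
          · rw [mem_cls.mp hw' i h5, hwA i h5]
          · rw [h4 i h5, hwB i h5]
        rw [if_neg h3]
      · intro h3
        exact absurd (mem_cls.mpr hwA) h3
    · rw [if_neg hb]
      apply sum_eq_zero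
      intro w' hw'
      have h3 : ¬ Ag B w' b := by
        intro h4
        apply hb
        intro i hi
        rw [mem_inter] at hi
        rw [← h4 i hi.2, mem_cls.mp hw' i hi.1]
      rw [if_neg h3]
  rw [sum_congr rfl (fun b _ => h2 b), ← sum_filter]
  rfl

theorem mg_res {p : (ι → V) → ℝ} (hp : ∀ ω, 0 ≤ p ω) {A B : Finset ι} (hAB : A ∪ B = univ)
    (ω : ι → V) : mg (res p A B) A ω = mg p A ω := by
  have h1 : mg (res p A B) A ω = mg p A ω / mg p (A ∩ B) ω * ∑ ω' ∈ cls A ω, mg p B ω' := by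
    rw [mul_sum]
    unfold mg res
    apply sum_congr rfl
    intro ω' hω'
    have h2 : Ag A ω' ω := mem_cls.mp hω'
    rw [mg_eq h2, mg_eq (h2.mono inter_subset_left)]
    unfold mg
    ring
  rw [h1, sum_mg hAB]
  by_cases h0 : mg p (A ∩ B) ω = 0
  · have h2 := mg_anti hp (inter_subset_left : A ∩ B ⊆ A) ω
    have h3 := mg_nonneg hp A ω
    have h4 : mg p A ω = 0 := le_antisymm (by rw [h0] at h2; exact h2) h3
    rw [h0, h4]
    ring
  · field_simp

theorem mg_res' {p : (ι → V) → ℝ} (hp : ∀ ω, 0 ≤ p ω) {A B : Finset ι} (hAB : A ∪ B = univ)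
    (ω : ι → V) : mg (res p A B) B ω = mg p B ω := by
  rw [res_comm]
  exact mg_res hp (by rw [union_comm]; exact hAB) ω

/-- the entropy of the resampled law -/
theorem hh_res {p : (ι → V) → ℝ} (hp : ∀ ω, 0 ≤ p ω) {A B : Finset ι} (hAB : A ∪ B = univ) :
    Hh (res p A B) univ = Hh p A + Hh p B - Hh p (A ∩ B) := by
  have h1 : ∀ ω, res p A B ω * Real.log (mg (res p A B) univ ω) =
      res p A B ω * Real.log (mg p A ω) + res p A B ω * Real.log (mg p B ω) -
        res p A B ω * Real.log (mg p (A ∩ B) ω) := by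
    intro ω
    rw [mg_univ]
    by_cases h0 : res p A B ω = 0
    · rw [h0]; ring
    · have hA : mg p A ω ≠ 0 := by
        intro h; apply h0; unfold res; rw [h]; simp
      have hB : mg p B ω ≠ 0 := by
        intro h; apply h0; unfold res; rw [h]; simp
      have hC : mg p (A ∩ B) ω ≠ 0 := by
        intro h; apply h0; unfold res; rw [h]; simp
      have e1 : Real.log (res p A B ω) = Real.log (mg p A ω) + Real.log (mg p B ω) -
          Real.log (mg p (A ∩ B) ω) := by
        unfold res
        rw [Real.log_div (mul_ne_zero hA hB) hC, Real.log_mul hA hB]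
      rw [e1]
      ring
  have hmC : ∀ ω, mg (res p A B) (A ∩ B) ω = mg p (A ∩ B) ω :=
    mg_of_mg (mg_res hp hAB) inter_subset_left
  have e2 : ∑ ω, res p A B ω * Real.log (mg p A ω) = ∑ ω, p ω * Real.log (mg p A ω) :=
    sum_eq_of_mg (mg_res hp hAB) (fun ω ω' h => by rw [mg_eq h])
  have e3 : ∑ ω, res p A B ω * Real.log (mg p B ω) = ∑ ω, p ω * Real.log (mg p B ω) :=
    sum_eq_of_mg (mg_res' hp hAB) (fun ω ω' h => by rw [mg_eq h])
  have e4 : ∑ ω, res p A B ω * Real.log (mg p (A ∩ B) ω) =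
      ∑ ω, p ω * Real.log (mg p (A ∩ B) ω) :=
    sum_eq_of_mg hmC (fun ω ω' h => by rw [mg_eq h])
  unfold Hh
  rw [sum_congr rfl (fun ω _ => h1 ω), sum_sub_distrib, sum_add_distrib, e2, e3, e4]
  ring

/-! ## The law of maximal entropy -/

/-- the probabilities whose marginals on the sets `P k` satisfy the closed conditions `J` -/
def Adm {κ : Type} (P : κ → Finset ι) (J : κ → (ι → V) → Set ℝ) : Set ((ι → V) → ℝ) :=
  {p | (∀ ω, 0 ≤ p ω) ∧ ∑ ω, p ω = 1 ∧ ∀ k ω, mg p (P k) ω ∈ J k ω}

theorem exists_markov {κ : Type} (P : κ → Finset ι) (J : κ → (ι → V) → Set ℝ)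
    (hJ : ∀ k ω, IsClosed (J k ω)) (hne : (Adm P J).Nonempty) :
    ∃ p ∈ Adm P J, ∀ A B : Finset ι, A ∪ B = univ → (∀ k, P k ⊆ A ∨ P k ⊆ B) →
      Hh p A + Hh p B = Hh p univ + Hh p (A ∩ B) := by
  have hmc : ∀ (A : Finset ι) (ω : ι → V), Continuous fun p : (ι → V) → ℝ => mg p A ω := by
    intro A ω
    unfold mg
    exact continuous_finsetSum _ (fun ω' _ => continuous_apply ω')
  have hclosed : IsClosed (Adm P J) := by
    have h1 : Adm P J = (⋂ ω, {p : (ι → V) → ℝ | 0 ≤ p ω}) ∩
        ({p | ∑ ω, p ω = 1} ∩ ⋂ k, ⋂ ω, {p | mg p (P k) ω ∈ J k ω}) := by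
      ext p
      simp only [Adm, Set.mem_ofPred_eq, Set.mem_inter_iff, Set.mem_iInter]
    rw [h1]
    refine IsClosed.inter ?_ (IsClosed.inter ?_ ?_)
    · exact isClosed_iInter (fun ω => isClosed_le continuous_const (continuous_apply ω))
    · exact isClosed_eq (continuous_finsetSum _ (fun ω _ => continuous_apply ω))
        continuous_const
    · exact isClosed_iInter (fun k => isClosed_iInter (fun ω => (hJ k ω).preimage (hmc _ ω)))
  have hcomp : IsCompact (Adm P J) := by
    apply IsCompact.of_isClosed_subset (isCompact_univ_pi (fun _ : ι → V => isCompact_Icc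
      (a := (0 : ℝ)) (b := 1))) hclosed
    intro p hp ω _
    refine ⟨hp.1 ω, ?_⟩
    rw [← hp.2.1]
    exact single_le_sum (f := p) (fun ω _ => hp.1 ω) (mem_univ ω)
  have hcont : ContinuousOn (fun p : (ι → V) → ℝ => ∑ ω, Real.negMulLog (p ω)) (Adm P J) :=
    (continuous_finsetSum _ (fun ω _ => Real.continuous_negMulLog.comp
      (continuous_apply ω))).continuousOn
  obtain ⟨p, hp, hmax⟩ := hcomp.exists_isMaxOn hne hcont
  refine ⟨p, hp, ?_⟩
  intro A B hAB hP
  apply le_antisymm
  · have hq : res p A B ∈ Adm P J := by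
      refine ⟨res_nonneg hp.1 A B, ?_, ?_⟩
      · rw [sum_of_mg (mg_res hp.1 hAB)]
        exact hp.2.1
      · intro k ω
        rcases hP k with h | h
        · rw [mg_of_mg (mg_res hp.1 hAB) h]
          exact hp.2.2 k ω
        · rw [mg_of_mg (mg_res' hp.1 hAB) h]
          exact hp.2.2 k ω
    have h1 := hmax hq
    simp only [← hh_univ] at h1
    rw [Set.mem_ofPred_eq, hh_res hp.1 hAB] at h1
    linarith
  · have h1 := submod hp.1 A B (A ∩ B) inter_subset_left inter_subset_right
    rw [hAB] at h1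
    exact h1

end Pool.Agent.Helper61_ENT
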