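import Pool.Agent.Helper61_ENT.Free

/-!
# Free end marginals, final form, helper61 (idea of helper47)
-/

namespace Pool.Agent.Helper61_ENT

open Finset
open scoped Classical

theorem exp_log_le {V : Type} [Fintype V] (r f : V → ℝ) (hr : ∀ v, 0 ≤ r v) (hr1 : ∑ v, r v = 1)
    (hf : ∀ v, 0 < r v → 0 < f v) {t : ℝ} (ht : ∑ v, r v * f v ≤ t) :
    0 < t ∧ ∑ v, r v * Real.log (f v) ≤ Real.log t := by
  have hex : ∃ v, 0 < r v := by
    by_contra h2
    push Not at h2
    have h3 : ∀ v, r v = 0 := fun v => le_antisymm (h2 v) (hr v)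
    rw [sum_congr rfl (fun v _ => h3 v), sum_const_zero] at hr1
    norm_num at hr1
  have hnn : ∀ v, 0 ≤ r v * f v := by
    intro v
    rcases eq_or_lt_of_le (hr v) with h | h
    · rw [← h]; simp
    · exact mul_nonneg h.le (hf v h).le
  obtain ⟨v0, hv0⟩ := hex
  have hpos : 0 < t := by
    have h1 : r v0 * f v0 ≤ ∑ v, r v * f v :=
      single_le_sum (f := fun v => r v * f v) (fun v _ => hnn v) (mem_univ v0)
    have h2 : 0 < r v0 * f v0 := mul_pos hv0 (hf v0 hv0)
    linarith
  refine ⟨hpos, ?_⟩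
  have h1 : ∀ v, r v * Real.log (f v) ≤ r v * Real.log t + (r v * f v) / t - r v := by
    intro v
    rcases eq_or_lt_of_le (hr v) with h | h
    · rw [← h]; simp
    · have h2 := hf v h
      have h3 := Real.log_le_sub_one_of_pos (show 0 < f v / t by positivity)
      rw [Real.log_div h2.ne' hpos.ne'] at h3
      have h4 := mul_le_mul_of_nonneg_left h3 h.le
      have h5 : r v * (f v / t - 1) = (r v * f v) / t - r v := by ring
      rw [h5] at h4
      linarith
  have h2 := sum_le_sum (fun v (_ : v ∈ univ) => h1 v)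
  rw [sum_sub_distrib, sum_add_distrib, ← sum_mul, hr1, ← sum_div] at h2
  have h3 : (∑ v, r v * f v) / t ≤ 1 := by
    rw [div_le_one hpos]
    exact ht
  linarith

theorem split_weight {V : Type} [Fintype V] (D : V → V → Prop) (hloop : ∀ v, ¬ D v v)
    (hdig : ∀ u v, D u v → ¬ D v u) (w : V → ℝ) (v : V) :
    (∑ x, if Non D v x then w x else 0) = ∑ x, w x - w v - (∑ x, if D v x then w x else 0) -
      (∑ x, if D x v then w x else 0) := by
  have e1 : w v = ∑ x, (if x = v then w x else 0) := by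
    rw [sum_ite_eq' univ v (fun x => w x), if_pos (mem_univ v)]
  rw [e1, ← sum_sub_distrib, ← sum_sub_distrib, ← sum_sub_distrib]
  apply sum_congr rfl
  intro x _
  by_cases hx : x = v
  · subst hx
    have n1 : ¬ Non D x x := fun h => h.1 rfl
    simp [hloop x, n1]
  · rw [if_neg hx]
    by_cases d1 : D v x
    · have d2 : ¬ D x v := hdig _ _ d1
      have d3 : ¬ Non D v x := fun h => h.2.1 d1
      simp [d1, d2, d3]
    · by_cases d2 : D x v
      · have d3 : ¬ Non D v x := fun h => h.2.2 d2
        simp [d1, d2, d3]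
      · have d3 : Non D v x := ⟨fun h => hx h.symm, d1, d2⟩
        simp [d1, d2, d3]

theorem free_ends {V : Type} [Fintype V] (D : V → V → Prop) (hloop : ∀ v, ¬ D v v)
    (hdig : ∀ u v, D u v → ¬ D v u) (a b : V → ℝ) (ha : ∀ v, 0 < a v) (hb : ∀ v, 0 < b v)
    (c : ℝ) (hc : 0 < c) (h1 : ∀ x, c * ∑ y, b y ≤ ∑ y, if D x y then b y else 0)
    (h2 : ∀ x, c * ∑ y, a y ≤ ∑ y, if D y x then a y else 0)
    (r s : V → ℝ) (hr : ∀ v, 0 ≤ r v) (hs : ∀ v, 0 ≤ s v) (hr1 : ∑ v, r v = 1)
    (hs1 : ∑ v, s v = 1) (h3 : c * ∑ y, a y ≤ ∑ x, r x * ∑ y, if D x y then a y else 0)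
    (h4 : c * ∑ y, b y ≤ ∑ x, s x * ∑ y, if D y x then b y else 0)
    (P : V → V → V → V → ℝ) (hP0 : ∀ u v x y, 0 ≤ P u v x y)
    (hP1 : ∀ u v x y, P u v x y ≠ 0 → Ringed D u v x y)
    (hm1 : ∀ u v, ∑ x, ∑ y, P u v x y =
      if D u v then r u * b v / (∑ z, if D u z then b z else 0) else 0)
    (hm2 : ∀ x y, ∑ u, ∑ v, P u v x y =
      if D x y then s y * a x / (∑ z, if D z y then a z else 0) else 0) : 3 * c < 1 := by
  have hne : Nonempty V := by
    by_contra h
    rw [not_nonempty_iff] at h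
    rw [Fintype.sum_empty] at hr1
    norm_num at hr1
  have hA : 0 < ∑ y, a y := sum_pos (fun y _ => ha y) univ_nonempty
  have hB : 0 < ∑ y, b y := sum_pos (fun y _ => hb y) univ_nonempty
  set A := ∑ y, a y with hAdef
  set B := ∑ y, b y with hBdef
  set bo : V → ℝ := fun u => ∑ z, if D u z then b z else 0 with hbo
  set ai : V → ℝ := fun u => ∑ z, if D z u then a z else 0 with hai
  have hbop : ∀ u, 0 < bo u := fun u => lt_of_lt_of_le (mul_pos hc hB) (h1 u)
  have haip : ∀ u, 0 < ai u := fun u => lt_of_lt_of_le (mul_pos hc hA) (h2 u)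
  let m1 : V → V → ℝ := fun u v => if D u v then r u * b v / bo u else 0
  let m2 : V → V → ℝ := fun x y => if D x y then s y * a x / ai y else 0
  have hm1n : ∀ u v, 0 ≤ m1 u v := by
    intro u v
    simp only [m1]
    split_ifs
    · exact div_nonneg (mul_nonneg (hr u) (hb v).le) (hbop u).le
    · exact le_rfl
  have hm2n : ∀ u v, 0 ≤ m2 u v := by
    intro u v
    simp only [m2]
    split_ifs
    · exact div_nonneg (mul_nonneg (hs v) (ha u).le) (haip v).le
    · exact le_rfl
  have hr' : ∀ u, ∑ v, m1 u v = r u := by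
    intro u
    have e1 : ∀ v, m1 u v = (r u / bo u) * (if D u v then b v else 0) := by
      intro v
      simp only [m1]
      split_ifs
      · ring
      · ring
    rw [sum_congr rfl (fun v _ => e1 v), ← mul_sum]
    exact div_mul_cancel₀ _ (hbop u).ne'
  have hs' : ∀ y, ∑ x, m2 x y = s y := by
    intro y
    have e1 : ∀ x, m2 x y = (s y / ai y) * (if D x y then a x else 0) := by
      intro x
      simp only [m2]
      split_ifs
      · ring
      · ring
    rw [sum_congr rfl (fun x _ => e1 x), ← mul_sum]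
    exact div_mul_cancel₀ _ (haip y).ne'
  have hsum1 : ∑ u, ∑ v, m1 u v = 1 := by
    rw [sum_congr rfl (fun u _ => hr' u)]
    exact hr1
  have hP2 : ∑ u, ∑ v, ∑ x, ∑ y, P u v x y = 1 := by
    rw [← hsum1]
    apply sum_congr rfl
    intro u _
    apply sum_congr rfl
    intro v _
    exact hm1 u v
  have hD : ∀ u v x y, P u v x y ≠ 0 → D u v ∧ D x y ∧ Ringed D u v x y := by
    intro u v x y h
    have hpos : 0 < P u v x y := lt_of_le_of_ne (hP0 _ _ _ _) (Ne.symm h)
    refine ⟨?_, ?_, hP1 _ _ _ _ h⟩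
    · by_contra hD
      have e := hm1 u v
      rw [if_neg hD] at e
      have e1 : P u v x y ≤ ∑ y', P u v x y' :=
        single_le_sum (f := fun y' => P u v x y') (fun y' _ => hP0 _ _ _ _) (mem_univ y)
      have e2 : ∑ y', P u v x y' ≤ ∑ x', ∑ y', P u v x' y' :=
        single_le_sum (f := fun x' => ∑ y', P u v x' y')
          (fun x' _ => sum_nonneg (fun y' _ => hP0 _ _ _ _)) (mem_univ x)
      linarith
    · by_contra hD
      have e := hm2 x y
      rw [if_neg hD] at e
      have e1 : P u v x y ≤ ∑ v', P u v' x y :=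
        single_le_sum (f := fun v' => P u v' x y) (fun v' _ => hP0 _ _ _ _) (mem_univ v)
      have e2 : ∑ v', P u v' x y ≤ ∑ u', ∑ v', P u' v' x y :=
        single_le_sum (f := fun u' => ∑ v', P u' v' x y)
          (fun u' _ => sum_nonneg (fun v' _ => hP0 _ _ _ _)) (mem_univ u)
      linarith
  have key := joint D a b ha hb P hP0 hD hP2 m1 m2 r s hm1 hm2 hr' hs'
  have q1 : (∑ u, ∑ v, m1 u v * (Real.log (b v) + Real.log (r u) - Real.log (m1 u v))) =
      ∑ u, r u * Real.log (bo u) := by
    apply sum_congr rfl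
    intro u _
    rw [← hr' u, sum_mul]
    apply sum_congr rfl
    intro v _
    rw [hr' u]
    rcases eq_or_lt_of_le (hm1n u v) with h0 | h0
    · rw [← h0]; simp
    · have hD1 : D u v := by
        by_contra hh
        simp only [m1] at h0
        rw [if_neg hh] at h0
        exact lt_irrefl _ h0
      have e2 : m1 u v = r u * b v / bo u := by
        simp only [m1]
        rw [if_pos hD1]
      have e3 : 0 < r u := by
        rcases eq_or_lt_of_le (hr u) with h4 | h4
        · rw [e2, ← h4] at h0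
          simp at h0
        · exact h4
      have e6 : Real.log (m1 u v) = Real.log (r u) + Real.log (b v) - Real.log (bo u) := by
        rw [e2, Real.log_div (mul_pos e3 (hb v)).ne' (hbop u).ne', Real.log_mul e3.ne' (hb v).ne']
      rw [e6]
      ring
  have q2 : (∑ x, ∑ y, m2 x y * (Real.log (a x) + Real.log (s y) - Real.log (m2 x y))) =
      ∑ y, s y * Real.log (ai y) := by
    rw [sum_comm]
    apply sum_congr rfl
    intro u _
    rw [← hs' u, sum_mul]
    apply sum_congr rfl
    intro v _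
    rw [hs' u]
    rcases eq_or_lt_of_le (hm2n v u) with h0 | h0
    · rw [← h0]; simp
    · have hD1 : D v u := by
        by_contra hh
        simp only [m2] at h0
        rw [if_neg hh] at h0
        exact lt_irrefl _ h0
      have e2 : m2 v u = s u * a v / ai u := by
        simp only [m2]
        rw [if_pos hD1]
      have e3 : 0 < s u := by
        rcases eq_or_lt_of_le (hs u) with h4 | h4
        · rw [e2, ← h4] at h0
          simp at h0
        · exact h4
      have e6 : Real.log (m2 v u) = Real.log (s u) + Real.log (a v) - Real.log (ai u) := by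
        rw [e2, Real.log_div (mul_pos e3 (ha v)).ne' (haip u).ne', Real.log_mul e3.ne' (ha v).ne']
      rw [e6]
      ring
  rw [q1, q2] at key
  -- positivity of the nonneighbourhoods
  have hN1 : ∀ u, 0 < r u → ∃ x, Non D u x := by
    intro u h
    rw [← hr' u] at h
    obtain ⟨v, -, hv⟩ := exists_ne_zero_of_sum_ne_zero h.ne'
    have e := hm1 u v
    have e' : (∑ x, ∑ y, P u v x y) ≠ 0 := by
      rw [e]
      exact hv
    obtain ⟨x, -, hx⟩ := exists_ne_zero_of_sum_ne_zero e'
    obtain ⟨y, -, hy⟩ := exists_ne_zero_of_sum_ne_zero hx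
    obtain ⟨d1, d2, d3⟩ := hD _ _ _ _ hy
    exact ⟨x, (non_of_ringed D d1 d2 d3).1⟩
  have hN2 : ∀ y, 0 < s y → ∃ x, Non D y x := by
    intro y h
    rw [← hs' y] at h
    obtain ⟨x, -, hv⟩ := exists_ne_zero_of_sum_ne_zero h.ne'
    have e := hm2 x y
    have e' : (∑ u, ∑ v, P u v x y) ≠ 0 := by
      rw [e]
      exact hv
    obtain ⟨u, -, hu⟩ := exists_ne_zero_of_sum_ne_zero e'
    obtain ⟨v, -, hv'⟩ := exists_ne_zero_of_sum_ne_zero hu
    obtain ⟨d1, d2, d3⟩ := hD _ _ _ _ hv'
    have d4 := (non_of_ringed D d1 d2 d3).2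
    exact ⟨v, d4.1.symm, d4.2.2, d4.2.1⟩
  have hra : 0 < ∑ v, r v * a v := by
    have hex : ∃ v, 0 < r v := by
      by_contra h2
      push Not at h2
      have h3 : ∀ v, r v = 0 := fun v => le_antisymm (h2 v) (hr v)
      rw [sum_congr rfl (fun v _ => h3 v), sum_const_zero] at hr1
      norm_num at hr1
    obtain ⟨v, hv⟩ := hex
    exact lt_of_lt_of_le (mul_pos hv (ha v)) (single_le_sum (f := fun v => r v * a v)
      (fun v _ => mul_nonneg (hr v) (ha v).le) (mem_univ v))
  have hsb : 0 < ∑ v, s v * b v := by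
    have hex : ∃ v, 0 < s v := by
      by_contra h2
      push Not at h2
      have h3 : ∀ v, s v = 0 := fun v => le_antisymm (h2 v) (hs v)
      rw [sum_congr rfl (fun v _ => h3 v), sum_const_zero] at hs1
      norm_num at hs1
    obtain ⟨v, hv⟩ := hex
    exact lt_of_lt_of_le (mul_pos hv (hb v)) (single_le_sum (f := fun v => s v * b v)
      (fun v _ => mul_nonneg (hs v) (hb v).le) (mem_univ v))
  have t1 : ∑ v, r v * (∑ x, if Non D v x then a x else 0) ≤ A * (1 - 2 * c) -
      ∑ v, r v * a v := by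
    have e1 : ∀ v, r v * (∑ x, if Non D v x then a x else 0) = r v * A - r v * a v -
        r v * (∑ x, if D v x then a x else 0) - r v * ai v := by
      intro v
      rw [split_weight D hloop hdig a v]
      ring
    rw [sum_congr rfl (fun v _ => e1 v), sum_sub_distrib, sum_sub_distrib, sum_sub_distrib,
      ← sum_mul, hr1]
    have e2 : c * A ≤ ∑ v, r v * ai v := by
      calc c * A = ∑ v, r v * (c * A) := by rw [← sum_mul, hr1, one_mul]
        _ ≤ ∑ v, r v * ai v := sum_le_sum (fun v _ => mul_le_mul_of_nonneg_left (h2 v) (hr v))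
    linarith
  have t2 : ∑ v, s v * (∑ x, if Non D v x then b x else 0) ≤ B * (1 - 2 * c) -
      ∑ v, s v * b v := by
    have e1 : ∀ v, s v * (∑ x, if Non D v x then b x else 0) = s v * B - s v * b v -
        s v * bo v - s v * (∑ x, if D x v then b x else 0) := by
      intro v
      rw [split_weight D hloop hdig b v]
      ring
    rw [sum_congr rfl (fun v _ => e1 v), sum_sub_distrib, sum_sub_distrib, sum_sub_distrib,
      ← sum_mul, hs1]
    have e2 : c * B ≤ ∑ v, s v * bo v := by
      calc c * B = ∑ v, s v * (c * B) := by rw [← sum_mul, hs1, one_mul]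
        _ ≤ ∑ v, s v * bo v := sum_le_sum (fun v _ => mul_le_mul_of_nonneg_left (h1 v) (hs v))
    linarith
  obtain ⟨u1, u2⟩ := exp_log_le r (fun v => ∑ x, if Non D v x then a x else 0) hr hr1
    (fun v h => by
      obtain ⟨x, hx⟩ := hN1 v h
      exact sum_non_pos (fun x => Non D v x) a ha x hx) t1
  obtain ⟨u3, u4⟩ := exp_log_le s (fun v => ∑ x, if Non D v x then b x else 0) hs hs1
    (fun v h => by
      obtain ⟨x, hx⟩ := hN2 v h
      exact sum_non_pos (fun x => Non D v x) b hb x hx) t2
  have w1 : Real.log (c * B) ≤ ∑ u, r u * Real.log (bo u) := by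
    calc Real.log (c * B) = ∑ u, r u * Real.log (c * B) := by rw [← sum_mul, hr1, one_mul]
      _ ≤ ∑ u, r u * Real.log (bo u) := sum_le_sum (fun v _ => mul_le_mul_of_nonneg_left
          (Real.log_le_log (mul_pos hc hB) (h1 v)) (hr v))
  have w2 : Real.log (c * A) ≤ ∑ u, s u * Real.log (ai u) := by
    calc Real.log (c * A) = ∑ u, s u * Real.log (c * A) := by rw [← sum_mul, hs1, one_mul]
      _ ≤ ∑ u, s u * Real.log (ai u) := sum_le_sum (fun v _ => mul_le_mul_of_nonneg_left
          (Real.log_le_log (mul_pos hc hA) (h2 v)) (hs v))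
  have w3 : Real.log (c * B) + Real.log (c * A) ≤
      Real.log (A * (1 - 2 * c) - ∑ v, r v * a v) + Real.log (B * (1 - 2 * c) -
        ∑ v, s v * b v) := by
    linarith
  have w4 : Real.log (A * (1 - 2 * c) - ∑ v, r v * a v) < Real.log (A * (1 - 2 * c)) :=
    Real.log_lt_log u1 (by linarith)
  have w5 : Real.log (B * (1 - 2 * c) - ∑ v, s v * b v) < Real.log (B * (1 - 2 * c)) :=
    Real.log_lt_log u3 (by linarith)
  have w6 : 0 < 1 - 2 * c := by
    by_contra h
    push Not at h
    have : A * (1 - 2 * c) ≤ 0 := mul_nonpos_of_nonneg_of_nonpos hA.le h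
    linarith
  rw [Real.log_mul hc.ne' hB.ne', Real.log_mul hc.ne' hA.ne'] at w3
  rw [Real.log_mul hA.ne' w6.ne'] at w4
  rw [Real.log_mul hB.ne' w6.ne'] at w5
  have w7 : Real.log c < Real.log (1 - 2 * c) := by linarith
  have w8 := (Real.log_lt_log_iff hc w6).mp w7
  linarith

end Pool.Agent.Helper61_ENT
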