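import Pool.Agent.Helper61_ENT.Tri

/-!
# Free end marginals, helper61 (idea of helper47)
-/

namespace Pool.Agent.Helper61_ENT

open Finset
open scoped Classical

theorem sum_non_pos {V : Type} [Fintype V] (A : V → Prop) (w : V → ℝ) (hw : ∀ v, 0 < w v) (x : V)
    (h : A x) : 0 < ∑ y, (if A y then w y else 0) := by
  have h1 : (if A x then w x else 0) ≤ ∑ y, (if A y then w y else 0) :=
    single_le_sum (f := fun y => if A y then w y else 0) (fun y _ => by
      split_ifs
      · exact (hw y).le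
      · exact le_rfl) (mem_univ x)
  rw [if_pos h] at h1
  exact lt_of_lt_of_le (hw x) h1

theorem sum_if_nonneg {V : Type} [Fintype V] (A : V → Prop) (w : V → ℝ) (hw : ∀ v, 0 < w v) :
    0 ≤ ∑ y, (if A y then w y else 0) := by
  apply sum_nonneg
  intro x _
  split_ifs
  · exact (hw x).le
  · exact le_rfl

/-- The entropy inequality for an arbitrary law on ringed pairs. -/
theorem joint {V : Type} [Fintype V] (D : V → V → Prop) (a b : V → ℝ) (ha : ∀ v, 0 < a v)
    (hb : ∀ v, 0 < b v) (P : V → V → V → V → ℝ) (hP0 : ∀ u v x y, 0 ≤ P u v x y)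
    (hP1 : ∀ u v x y, P u v x y ≠ 0 → D u v ∧ D x y ∧ Ringed D u v x y)
    (hP2 : ∑ u, ∑ v, ∑ x, ∑ y, P u v x y = 1) (m1 m2 : V → V → ℝ) (r s : V → ℝ)
    (hm1 : ∀ u v, ∑ x, ∑ y, P u v x y = m1 u v) (hm2 : ∀ x y, ∑ u, ∑ v, P u v x y = m2 x y)
    (hr : ∀ u, ∑ v, m1 u v = r u) (hs : ∀ y, ∑ x, m2 x y = s y) :
    (∑ u, ∑ v, m1 u v * (Real.log (b v) + Real.log (r u) - Real.log (m1 u v))) +
      (∑ x, ∑ y, m2 x y * (Real.log (a x) + Real.log (s y) - Real.log (m2 x y))) ≤
      (∑ v, r v * Real.log (∑ x, if Non D v x then a x else 0)) +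
        ∑ v, s v * Real.log (∑ x, if Non D v x then b x else 0) := by
  set τ : V → ℝ := fun v => ∑ x, if Non D v x then a x else 0 with hτ
  set θ : V → ℝ := fun v => ∑ x, if Non D v x then b x else 0 with hθ
  have hm1n : ∀ u v, 0 ≤ m1 u v := fun u v => by
    rw [← hm1]
    exact sum_nonneg (fun x _ => sum_nonneg (fun y _ => hP0 _ _ _ _))
  have hm2n : ∀ u v, 0 ≤ m2 u v := fun u v => by
    rw [← hm2]
    exact sum_nonneg (fun x _ => sum_nonneg (fun y _ => hP0 _ _ _ _))
  have hm1p : ∀ u v, 0 < m1 u v → ∃ x y, 0 < P u v x y := by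
    intro u v h
    rw [← hm1 u v] at h
    obtain ⟨x, -, hx⟩ := exists_ne_zero_of_sum_ne_zero h.ne'
    obtain ⟨y, -, hy⟩ := exists_ne_zero_of_sum_ne_zero hx
    exact ⟨x, y, lt_of_le_of_ne (hP0 _ _ _ _) (Ne.symm hy)⟩
  have hm2p : ∀ x y, 0 < m2 x y → ∃ u v, 0 < P u v x y := by
    intro x y h
    rw [← hm2 x y] at h
    obtain ⟨u, -, hu⟩ := exists_ne_zero_of_sum_ne_zero h.ne'
    obtain ⟨v, -, hv⟩ := exists_ne_zero_of_sum_ne_zero hu
    exact ⟨u, v, lt_of_le_of_ne (hP0 _ _ _ _) (Ne.symm hv)⟩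
  have hD1 : ∀ u v, 0 < m1 u v → D u v := by
    intro u v h
    obtain ⟨x, y, h1⟩ := hm1p u v h
    exact (hP1 _ _ _ _ h1.ne').1
  have hD2 : ∀ u v, 0 < m2 u v → D u v := by
    intro x y h
    obtain ⟨u, v, h1⟩ := hm2p x y h
    exact (hP1 _ _ _ _ h1.ne').2.1
  have hN1 : ∀ u v, 0 < m1 u v → ∃ x, Non D u x := by
    intro u v h
    obtain ⟨x, y, h1⟩ := hm1p u v h
    obtain ⟨h2, h3, h4⟩ := hP1 _ _ _ _ h1.ne'
    exact ⟨x, (non_of_ringed D h2 h3 h4).1⟩
  have hN2 : ∀ x y, 0 < m2 x y → ∃ v, Non D y v := by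
    intro x y h
    obtain ⟨u, v, h1⟩ := hm2p x y h
    obtain ⟨h2, h3, h4⟩ := hP1 _ _ _ _ h1.ne'
    have h5 := (non_of_ringed D h2 h3 h4).2
    exact ⟨v, h5.1.symm, h5.2.2, h5.2.1⟩
  have hrn : ∀ v, 0 ≤ r v := fun v => by
    rw [← hr]
    exact sum_nonneg (fun x _ => hm1n _ _)
  have hsn : ∀ v, 0 ≤ s v := fun v => by
    rw [← hs]
    exact sum_nonneg (fun x _ => hm2n _ _)
  have hrp : ∀ u v, 0 < m1 u v → 0 < r u := by
    intro u v h
    rw [← hr]
    exact lt_of_lt_of_le h (single_le_sum (f := fun x => m1 u x) (fun x _ => hm1n u x)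
      (mem_univ v))
  have hsp : ∀ x y, 0 < m2 x y → 0 < s y := by
    intro x y h
    rw [← hs]
    exact lt_of_lt_of_le h (single_le_sum (f := fun x => m2 x y) (fun x _ => hm2n x y)
      (mem_univ x))
  have hsum1 : ∑ u, ∑ v, m1 u v = 1 := by
    rw [← hP2]
    apply sum_congr rfl
    intro u _
    apply sum_congr rfl
    intro v _
    exact (hm1 u v).symm
  have hsum2 : ∑ x, ∑ y, m2 x y = 1 := by
    rw [← hP2]
    calc ∑ x, ∑ w, m2 x w = ∑ x, ∑ w, ∑ u, ∑ v, P u v x w := by
          apply sum_congr rfl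
          intro x _
          apply sum_congr rfl
          intro w _
          exact (hm2 x w).symm
      _ = ∑ x, ∑ u, ∑ w, ∑ v, P u v x w := by
          apply sum_congr rfl
          intro x _
          exact sum_comm
      _ = ∑ u, ∑ x, ∑ w, ∑ v, P u v x w := sum_comm
      _ = ∑ u, ∑ x, ∑ v, ∑ w, P u v x w := by
          apply sum_congr rfl
          intro u _
          apply sum_congr rfl
          intro x _
          exact sum_comm
      _ = ∑ u, ∑ v, ∑ x, ∑ w, P u v x w := by
          apply sum_congr rfl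
          intro u _
          exact sum_comm
  have hr1 : ∑ u, r u = 1 := by
    rw [← hsum1]
    exact sum_congr rfl (fun u _ => (hr u).symm)
  have hs1 : ∑ u, s u = 1 := by
    rw [← hsum2, sum_comm]
    exact sum_congr rfl (fun u _ => (hs u).symm)
  have hτ0 : ∀ v, 0 ≤ τ v := fun v => sum_if_nonneg _ a ha
  have hθ0 : ∀ v, 0 ≤ θ v := fun v => sum_if_nonneg _ b hb
  have key := ring_master m1 m2 (fun v x => (∀ z, ¬ (D x z ∧ D z v)) ∧ ¬ D x v)
    (fun y u => ∀ z, ¬ (D u z ∧ D z y)) (Non D) (Non D) hm1n hm2n hsum1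
    (fun u v x y h1 h2 h3 h4 => non_of_ringed D (hD1 _ _ h1) (hD2 _ _ h3) ⟨h4, h2.1, h2.2⟩)
    P hP0
    (fun u v x y h => ⟨⟨(hP1 _ _ _ _ h).2.2.2.1, (hP1 _ _ _ _ h).2.2.2.2⟩,
      (hP1 _ _ _ _ h).2.2.1⟩)
    hm1 hm2 (fun v => r v / τ v) a b (fun v => s v / θ v)
    (fun v => div_nonneg (hrn v) (hτ0 v)) (fun v => (ha v).le) (fun v => (hb v).le)
    (fun v => div_nonneg (hsn v) (hθ0 v))
    (by
      intro u v h
      obtain ⟨x, hx⟩ := hN1 u v h
      exact ⟨div_pos (hrp _ _ h) (sum_non_pos (fun x => Non D u x) a ha x hx), hb v⟩)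
    (by
      intro x y h
      obtain ⟨v, hv⟩ := hN2 x y h
      exact ⟨ha x, div_pos (hsp _ _ h) (sum_non_pos (fun z => Non D y z) b hb v hv)⟩)
  have l1 : Real.log (∑ u, ∑ x, if Non D u x then r u / τ u * a x else 0) ≤ 0 := by
    apply Real.log_nonpos
    · apply sum_nonneg
      intro u _
      apply sum_nonneg
      intro x _
      split_ifs
      · exact mul_nonneg (div_nonneg (hrn u) (hτ0 u)) (ha x).le
      · exact le_rfl
    · rw [← hr1]
      apply sum_le_sum
      intro u _
      have h1 : ∑ x, (if Non D u x then r u / τ u * a x else 0) = r u / τ u * τ u := by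
        rw [hτ]
        simp only
        rw [mul_sum]
        apply sum_congr rfl
        intro x _
        by_cases h : Non D u x
        · rw [if_pos h, if_pos h]
        · rw [if_neg h, if_neg h, mul_zero]
      rw [h1]
      by_cases h2 : τ u = 0
      · rw [h2, mul_zero]
        exact hrn u
      · rw [div_mul_cancel₀ _ h2]
  have l2 : Real.log (∑ v, ∑ y, if Non D v y then b v * (s y / θ y) else 0) ≤ 0 := by
    apply Real.log_nonpos
    · apply sum_nonneg
      intro u _
      apply sum_nonneg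
      intro x _
      split_ifs
      · exact mul_nonneg (hb u).le (div_nonneg (hsn x) (hθ0 x))
      · exact le_rfl
    · rw [← hs1, sum_comm]
      apply sum_le_sum
      intro u _
      have h1 : ∑ x, (if Non D x u then b x * (s u / θ u) else 0) = s u / θ u * θ u := by
        rw [hθ]
        simp only
        rw [mul_sum]
        apply sum_congr rfl
        intro x _
        by_cases h : Non D x u
        · have h' : Non D u x := ⟨h.1.symm, h.2.2, h.2.1⟩
          rw [if_pos h, if_pos h']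
          ring
        · have h' : ¬ Non D u x := fun h3 => h ⟨h3.1.symm, h3.2.2, h3.2.1⟩
          rw [if_neg h, if_neg h', mul_zero]
      rw [h1]
      by_cases h2 : θ u = 0
      · rw [h2, mul_zero]
        exact hsn u
      · rw [div_mul_cancel₀ _ h2]
  have e1 : (∑ u, ∑ v, m1 u v * (Real.log (r u / τ u) + Real.log (b v) -
      Real.log (m1 u v))) =
      (∑ u, ∑ v, m1 u v * (Real.log (b v) + Real.log (r u) - Real.log (m1 u v))) -
        ∑ v, r v * Real.log (τ v) := by
    have h1 : ∀ u v, m1 u v * (Real.log (r u / τ u) + Real.log (b v) - Real.log (m1 u v)) =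
        m1 u v * (Real.log (b v) + Real.log (r u) - Real.log (m1 u v)) -
          m1 u v * Real.log (τ u) := by
      intro u v
      rcases eq_or_lt_of_le (hm1n u v) with h0 | h0
      · rw [← h0]; ring
      · obtain ⟨x, hx⟩ := hN1 u v h0
        have h2 := sum_non_pos (fun x => Non D u x) a ha x hx
        rw [Real.log_div (hrp _ _ h0).ne' h2.ne']
        ring
    simp only [h1, sum_sub_distrib]
    congr 1
    apply sum_congr rfl
    intro u _
    rw [← sum_mul, hr]
  have e2 : (∑ x, ∑ y, m2 x y * (Real.log (a x) + Real.log (s y / θ y) -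
      Real.log (m2 x y))) =
      (∑ x, ∑ y, m2 x y * (Real.log (a x) + Real.log (s y) - Real.log (m2 x y))) -
        ∑ v, s v * Real.log (θ v) := by
    have h1 : ∀ u v, m2 u v * (Real.log (a u) + Real.log (s v / θ v) - Real.log (m2 u v)) =
        m2 u v * (Real.log (a u) + Real.log (s v) - Real.log (m2 u v)) -
          m2 u v * Real.log (θ v) := by
      intro u v
      rcases eq_or_lt_of_le (hm2n u v) with h0 | h0
      · rw [← h0]; ring
      · obtain ⟨x, hx⟩ := hN2 u v h0
        have h2 := sum_non_pos (fun x => Non D v x) b hb x hx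
        rw [Real.log_div (hsp _ _ h0).ne' h2.ne']
        ring
    simp only [h1, sum_sub_distrib]
    congr 1
    rw [sum_comm]
    apply sum_congr rfl
    intro u _
    rw [← sum_mul, hs]
  rw [e1, e2] at key
  have e3 : ∑ v, r v * Real.log (∑ x, if Non D v x then a x else 0) =
      ∑ v, r v * Real.log (τ v) := rfl
  have e4 : ∑ v, s v * Real.log (∑ x, if Non D v x then b x else 0) =
      ∑ v, s v * Real.log (θ v) := rfl
  rw [e3, e4]
  linarith

end Pool.Agent.Helper61_ENT
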