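import Pool.Agent.Helper61_ENT.Ring

/-!
# The master form of the ring inequality, helper61

`ring_master`: two laws `m1`, `m2` on pairs with a coupling carried by `R v x`, `S w u`.
`stat_out`, `stat_in`: the form for a stationary law and the out- and in-neighbourhoods of `T`.
-/

namespace Pool.Agent.Helper61_ENT

open Finset
open scoped Classical

theorem ring_master {V : Type} [Fintype V] (m1 m2 : V → V → ℝ) (R S T T' : V → V → Prop)
    (hm1 : ∀ u v, 0 ≤ m1 u v) (hm2 : ∀ u v, 0 ≤ m2 u v) (hsum1 : ∑ u, ∑ v, m1 u v = 1)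
    (hT : ∀ u v x w, 0 < m1 u v → R v x → 0 < m2 x w → S w u → T u x ∧ T' v w)
    (P : V → V → V → V → ℝ) (hP0 : ∀ u v x w, 0 ≤ P u v x w)
    (hP1 : ∀ u v x w, P u v x w ≠ 0 → R v x ∧ S w u)
    (hrow : ∀ u v, ∑ x, ∑ w, P u v x w = m1 u v)
    (hcol : ∀ x w, ∑ u, ∑ v, P u v x w = m2 x w)
    (a b a' b' : V → ℝ) (ha : ∀ v, 0 ≤ a v) (hb : ∀ v, 0 ≤ b v) (ha' : ∀ v, 0 ≤ a' v)
    (hb' : ∀ v, 0 ≤ b' v) (hpos1 : ∀ u v, 0 < m1 u v → 0 < a u ∧ 0 < a' v)
    (hpos2 : ∀ x w, 0 < m2 x w → 0 < b x ∧ 0 < b' w) :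
    (∑ u, ∑ v, m1 u v * (Real.log (a u) + Real.log (a' v) - Real.log (m1 u v))) +
      (∑ x, ∑ w, m2 x w * (Real.log (b x) + Real.log (b' w) - Real.log (m2 x w))) ≤
      Real.log (∑ u, ∑ x, if T u x then a u * b x else 0) +
        Real.log (∑ v, ∑ w, if T' v w then a' v * b' w else 0) := by
  have hsum : ∑ u, ∑ v, ∑ x, ∑ w, P u v x w = 1 := by
    rw [← hsum1]
    apply sum_congr rfl
    intro u _
    apply sum_congr rfl
    intro v _
    exact hrow u v
  -- constraints
  let Q : Fin 4 → Finset (Fin 4) := ![{0, 1}, {2, 3}, {1, 2}, {3, 0}]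
  let J : Fin 4 → (Fin 4 → V) → Set ℝ := fun k ω =>
    if k = 0 then {m1 (ω 0) (ω 1)}
    else if k = 1 then {m2 (ω 2) (ω 3)}
    else if k = 2 then (if R (ω 1) (ω 2) then Set.univ else {0})
    else (if S (ω 3) (ω 0) then Set.univ else {0})
  have hJ : ∀ k ω, IsClosed (J k ω) := by
    intro k ω
    have hk : k = 0 ∨ k = 1 ∨ k = 2 ∨ k = 3 := by fin_cases k <;> simp
    rcases hk with rfl | rfl | rfl | rfl
    · simp only [J, if_true]
      exact isClosed_singleton
    · have e0 : (1 : Fin 4) ≠ 0 := by decide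
      simp only [J, if_true, if_neg e0]
      exact isClosed_singleton
    · have e0 : (2 : Fin 4) ≠ 0 := by decide
      have e1 : (2 : Fin 4) ≠ 1 := by decide
      simp only [J, if_true, if_neg e0, if_neg e1]
      by_cases hR : R (ω 1) (ω 2)
      · rw [if_pos hR]
        exact isClosed_univ
      · rw [if_neg hR]
        exact isClosed_singleton
    · have e0 : (3 : Fin 4) ≠ 0 := by decide
      have e1 : (3 : Fin 4) ≠ 1 := by decide
      have e3 : (3 : Fin 4) ≠ 2 := by decide
      simp only [J, if_neg e0, if_neg e1, if_neg e3]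
      by_cases hS : S (ω 3) (ω 0)
      · rw [if_pos hS]
        exact isClosed_univ
      · rw [if_neg hS]
        exact isClosed_singleton
  have hne : (Adm Q J).Nonempty := by
    refine ⟨fun ω => P (ω 0) (ω 1) (ω 2) (ω 3), ?_, ?_, ?_⟩
    · intro ω
      exact hP0 _ _ _ _
    · rw [sum_quad]
      exact hsum
    · intro k ω
      have hk : k = 0 ∨ k = 1 ∨ k = 2 ∨ k = 3 := by fin_cases k <;> simp
      rcases hk with rfl | rfl | rfl | rfl
      · simp only [J, Q, if_true, Set.mem_singleton_iff]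
        have e1 := (mg_pair (fun ω => P (ω 0) (ω 1) (ω 2) (ω 3)) ω).1
        have e2 : (![({0, 1} : Finset (Fin 4)), {2, 3}, {1, 2}, {3, 0}] 0) = {0, 1} := rfl
        rw [e2, e1]
        exact hrow _ _
      · have e0 : (1 : Fin 4) ≠ 0 := by decide
        simp only [J, Q, if_true, if_neg e0, Set.mem_singleton_iff]
        have e1 := (mg_pair (fun ω => P (ω 0) (ω 1) (ω 2) (ω 3)) ω).2
        have e2 : (![({0, 1} : Finset (Fin 4)), {2, 3}, {1, 2}, {3, 0}] 1) = {2, 3} := rfl
        rw [e2, e1]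
        exact hcol _ _
      · have e0 : (2 : Fin 4) ≠ 0 := by decide
        have e1 : (2 : Fin 4) ≠ 1 := by decide
        simp only [J, Q, if_true, if_neg e0, if_neg e1]
        by_cases hR : R (ω 1) (ω 2)
        · rw [if_pos hR]
          exact Set.mem_univ _
        · rw [if_neg hR, Set.mem_singleton_iff]
          have e2 : (![({0, 1} : Finset (Fin 4)), {2, 3}, {1, 2}, {3, 0}] 2) = {1, 2} := rfl
          rw [e2]
          unfold mg
          apply sum_eq_zero
          intro ω' hω'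
          have h1 := mem_cls.mp hω' 1 (by decide)
          have h2 := mem_cls.mp hω' 2 (by decide)
          by_contra h4
          have h5 := (hP1 _ _ _ _ h4).1
          rw [h1, h2] at h5
          exact hR h5
      · have e0 : (3 : Fin 4) ≠ 0 := by decide
        have e1 : (3 : Fin 4) ≠ 1 := by decide
        have e3 : (3 : Fin 4) ≠ 2 := by decide
        simp only [J, Q, if_neg e0, if_neg e1, if_neg e3]
        by_cases hS : S (ω 3) (ω 0)
        · rw [if_pos hS]
          exact Set.mem_univ _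
        · rw [if_neg hS, Set.mem_singleton_iff]
          have e2 : (![({0, 1} : Finset (Fin 4)), {2, 3}, {1, 2}, {3, 0}] 3) = {3, 0} := rfl
          rw [e2]
          unfold mg
          apply sum_eq_zero
          intro ω' hω'
          have h1 := mem_cls.mp hω' 3 (by decide)
          have h2 := mem_cls.mp hω' 0 (by decide)
          by_contra h4
          have h5 := (hP1 _ _ _ _ h4).2
          rw [h1, h2] at h5
          exact hS h5
  obtain ⟨p, hpA, hmk⟩ := exists_markov Q J hJ hne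
  have hp := hpA.1
  have hs := hpA.2.1
  have k1 := hmk {0, 1, 2} {2, 3, 0} (by decide) (by decide)
  have k2 := hmk {1, 2, 3} {3, 0, 1} (by decide) (by decide)
  have e1 : ({0, 1, 2} ∩ {2, 3, 0} : Finset (Fin 4)) = {0, 2} := by decide
  have e2 : ({1, 2, 3} ∩ {3, 0, 1} : Finset (Fin 4)) = {1, 3} := by decide
  rw [e1] at k1
  rw [e2] at k2
  have hring := ring_ineq hp k1 k2
  -- marginals
  have hm0 : ∀ ω, mg p {0, 1} ω = m1 (ω 0) (ω 1) := by
    intro ω
    have h := hpA.2.2 0 ω
    simp only [J, Q, if_true, Set.mem_singleton_iff] at h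
    exact h
  have hm1' : ∀ ω, mg p {2, 3} ω = m2 (ω 2) (ω 3) := by
    intro ω
    have e0 : (1 : Fin 4) ≠ 0 := by decide
    have h := hpA.2.2 1 ω
    simp only [J, Q, if_true, if_neg e0, Set.mem_singleton_iff] at h
    exact h
  have hR : ∀ ω, 0 < p ω → R (ω 1) (ω 2) := by
    intro ω hω
    by_contra hR
    have e0 : (2 : Fin 4) ≠ 0 := by decide
    have e1 : (2 : Fin 4) ≠ 1 := by decide
    have h := hpA.2.2 2 ω
    simp only [J, Q, if_true, if_neg e0, if_neg e1, if_neg hR, Set.mem_singleton_iff] at h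
    exact absurd h (mg_pos hp _ hω).ne'
  have hSS : ∀ ω, 0 < p ω → S (ω 3) (ω 0) := by
    intro ω hω
    by_contra hS
    have e0 : (3 : Fin 4) ≠ 0 := by decide
    have e1 : (3 : Fin 4) ≠ 1 := by decide
    have e3 : (3 : Fin 4) ≠ 2 := by decide
    have h := hpA.2.2 3 ω
    simp only [J, Q, if_neg e0, if_neg e1, if_neg e3, if_neg hS, Set.mem_singleton_iff] at h
    exact absurd h (mg_pos hp _ hω).ne'
  have hM1 : ∀ ω, 0 < p ω → 0 < m1 (ω 0) (ω 1) := by
    intro ω hω
    rw [← hm0]
    exact mg_pos hp _ hω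
  have hM2 : ∀ ω, 0 < p ω → 0 < m2 (ω 2) (ω 3) := by
    intro ω hω
    rw [← hm1']
    exact mg_pos hp _ hω
  have hTT : ∀ ω, 0 < p ω → T (ω 0) (ω 2) ∧ T' (ω 1) (ω 3) := fun ω hω =>
    hT _ _ _ _ (hM1 ω hω) (hR ω hω) (hM2 ω hω) (hSS ω hω)
  -- expectations
  have hexp1 : ∀ F : V → V → ℝ, ∑ ω, p ω * F (ω 0) (ω 1) = ∑ u, ∑ v, m1 u v * F u v := by
    intro F
    rw [sum_quad]
    apply sum_congr rfl
    intro u _
    apply sum_congr rfl
    intro v _
    have h1 : ∀ x w : V, p ![u, v, x, w] * F (![u, v, x, w] 0) (![u, v, x, w] 1) =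
        p ![u, v, x, w] * F u v := fun x w => rfl
    simp only [h1]
    simp only [← sum_mul]
    have h2 := (mg_pair p ![u, v, u, v]).1
    rw [hm0] at h2
    have h3 : m1 (![u, v, u, v] 0) (![u, v, u, v] 1) = m1 u v := rfl
    have h4 : ∀ x w : V, p ![![u, v, u, v] 0, ![u, v, u, v] 1, x, w] = p ![u, v, x, w] :=
      fun x w => rfl
    simp only [h3, h4] at h2
    rw [h2]
  have hexp2 : ∀ F : V → V → ℝ, ∑ ω, p ω * F (ω 2) (ω 3) = ∑ x, ∑ w, m2 x w * F x w := by
    intro F
    rw [sum_quad]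
    calc ∑ u, ∑ v, ∑ x, ∑ w, p ![u, v, x, w] * F (![u, v, x, w] 2) (![u, v, x, w] 3)
        = ∑ u, ∑ x, ∑ v, ∑ w, p ![u, v, x, w] * F x w := by
          apply sum_congr rfl
          intro u _
          exact sum_comm
      _ = ∑ x, ∑ u, ∑ v, ∑ w, p ![u, v, x, w] * F x w := sum_comm
      _ = ∑ x, ∑ w, m2 x w * F x w := by
          apply sum_congr rfl
          intro x _
          calc ∑ u, ∑ v, ∑ w, p ![u, v, x, w] * F x w
              = ∑ u, ∑ w, ∑ v, p ![u, v, x, w] * F x w := by
                apply sum_congr rfl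
                intro u _
                exact sum_comm
            _ = ∑ w, ∑ u, ∑ v, p ![u, v, x, w] * F x w := sum_comm
            _ = ∑ w, m2 x w * F x w := by
                apply sum_congr rfl
                intro w _
                simp only [← sum_mul]
                have h2 := (mg_pair p ![x, w, x, w]).2
                rw [hm1'] at h2
                have h3 : m2 (![x, w, x, w] 2) (![x, w, x, w] 3) = m2 x w := rfl
                have h4 : ∀ u v : V, p ![u, v, ![x, w, x, w] 2, ![x, w, x, w] 3] =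
                    p ![u, v, x, w] := fun u v => rfl
                simp only [h3, h4] at h2
                rw [h2]
  -- entropies
  have q1 : Hh p {0, 1} = - ∑ u, ∑ v, m1 u v * Real.log (m1 u v) := by
    unfold Hh
    rw [← hexp1 (fun u v => Real.log (m1 u v))]
    simp only [hm0]
  have q2 : Hh p {2, 3} = - ∑ u, ∑ v, m2 u v * Real.log (m2 u v) := by
    unfold Hh
    rw [← hexp2 (fun u v => Real.log (m2 u v))]
    simp only [hm1']
  have q3 := hh_le_weight hp hs 0 2 (fun u v => if T u v then a u * b v else 0) (by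
    intro x y
    split_ifs
    · exact mul_nonneg (ha _) (hb _)
    · exact le_rfl) (by
    intro ω hω
    simp only [if_pos (hTT ω hω).1]
    exact mul_pos (hpos1 _ _ (hM1 ω hω)).1 (hpos2 _ _ (hM2 ω hω)).1)
  have q4 := hh_le_weight hp hs 1 3 (fun u v => if T' u v then a' u * b' v else 0) (by
    intro x y
    split_ifs
    · exact mul_nonneg (ha' _) (hb' _)
    · exact le_rfl) (by
    intro ω hω
    simp only [if_pos (hTT ω hω).2]
    exact mul_pos (hpos1 _ _ (hM1 ω hω)).2 (hpos2 _ _ (hM2 ω hω)).2)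
  have hlog : ∑ ω, p ω * Real.log (if T (ω 0) (ω 2) then a (ω 0) * b (ω 2) else 0) +
      ∑ ω, p ω * Real.log (if T' (ω 1) (ω 3) then a' (ω 1) * b' (ω 3) else 0) =
      ∑ ω, p ω * (Real.log (a (ω 0)) + Real.log (a' (ω 1))) +
      ∑ ω, p ω * (Real.log (b (ω 2)) + Real.log (b' (ω 3))) := by
    rw [← sum_add_distrib, ← sum_add_distrib]
    apply sum_congr rfl
    intro ω _
    rcases eq_or_lt_of_le (hp ω) with h0 | h0
    · rw [← h0]; ring
    · rw [if_pos (hTT ω h0).1, if_pos (hTT ω h0).2]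
      have a1 := (hpos1 _ _ (hM1 ω h0)).1
      have a2 := (hpos1 _ _ (hM1 ω h0)).2
      have a3 := (hpos2 _ _ (hM2 ω h0)).1
      have a4 := (hpos2 _ _ (hM2 ω h0)).2
      rw [Real.log_mul a1.ne' a3.ne', Real.log_mul a2.ne' a4.ne']
      ring
  rw [hexp1 (fun u v => Real.log (a u) + Real.log (a' v)),
    hexp2 (fun u v => Real.log (b u) + Real.log (b' v))] at hlog
  have s1 : ∑ u, ∑ v, m1 u v * (Real.log (a u) + Real.log (a' v) - Real.log (m1 u v)) =
      ∑ u, ∑ v, m1 u v * (Real.log (a u) + Real.log (a' v)) -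
        ∑ u, ∑ v, m1 u v * Real.log (m1 u v) := by
    rw [← sum_sub_distrib]
    apply sum_congr rfl
    intro u _
    rw [← sum_sub_distrib]
    apply sum_congr rfl
    intro v _
    ring
  have s2 : ∑ u, ∑ v, m2 u v * (Real.log (b u) + Real.log (b' v) - Real.log (m2 u v)) =
      ∑ u, ∑ v, m2 u v * (Real.log (b u) + Real.log (b' v)) -
        ∑ u, ∑ v, m2 u v * Real.log (m2 u v) := by
    rw [← sum_sub_distrib]
    apply sum_congr rfl
    intro u _
    rw [← sum_sub_distrib]
    apply sum_congr rfl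
    intro v _
    ring
  rw [s1, s2]
  linarith

end Pool.Agent.Helper61_ENT
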