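import Pool.Agent.Helper61_ENT.Core

/-!
# The ring inequality for couplings of pairs, helper61

`ring4`: if a coupling of the weight `α ⊗ β` on `E1` with the weight `γ ⊗ δ` on `E2` is carried by
quadruples `(u, v, x, w)` with `R v x` and `S w u`, then
`(Σ_{E1} α β)² ≤ (Σ_T α γ) (Σ_{T'} β δ)`, where `T`, `T'` contain the diagonals `(u, x)`, `(v, w)`
of all quadruples with `E1 u v`, `R v x`, `E2 x w`, `S w u`.
-/

namespace Pool.Agent.Helper61_ENT

open Finset
open scoped Classical

/-- Gibbs' inequality for a pair of coordinates -/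
theorem hh_le_weight {ι V : Type} [Fintype ι] [DecidableEq ι] [Fintype V] {p : (ι → V) → ℝ} (hp : ∀ ω, 0 ≤ p ω)
    (hs : ∑ ω, p ω = 1) (i j : ι) (W : V → V → ℝ) (hW : ∀ x y, 0 ≤ W x y)
    (hS : ∀ ω, 0 < p ω → 0 < W (ω i) (ω j)) :
    Hh p {i, j} ≤ Real.log (∑ x, ∑ y, W x y) - ∑ ω, p ω * Real.log (W (ω i) (ω j)) := by
  have hZ : 0 < ∑ x, ∑ y, W x y := by
    have h1 : ∃ ω, 0 < p ω := by
      by_contra hc
      push Not at hc
      have h0 : ∀ ω, p ω = 0 := fun ω => le_antisymm (hc ω) (hp ω)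
      rw [sum_congr rfl (fun ω _ => h0 ω), sum_const_zero] at hs
      norm_num at hs
    obtain ⟨ω, hω⟩ := h1
    have h2 := hS ω hω
    have h3 : W (ω i) (ω j) ≤ ∑ y, W (ω i) y :=
      single_le_sum (f := fun y => W (ω i) y) (fun y _ => hW _ y) (mem_univ _)
    have h4 : ∑ y, W (ω i) y ≤ ∑ x, ∑ y, W x y :=
      single_le_sum (f := fun x => ∑ y, W x y) (fun x _ => sum_nonneg (fun y _ => hW x y))
        (mem_univ _)
    linarith
  set Z := ∑ x, ∑ y, W x y with hZdef
  clear_value Z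
  have hcls : ∀ ω ω' : ι → V, Ag {i, j} ω' ω ↔ ((ω' i, ω' j) : V × V) = (ω i, ω j) := by
    intro ω ω'
    constructor
    · intro h
      rw [h i (by simp), h j (by simp)]
    · intro h k hk
      rw [Prod.mk.injEq] at h
      rcases mem_insert.mp hk with rfl | h1
      · exact h.1
      · rw [mem_singleton] at h1
        rw [h1]
        exact h.2
  have h1 : ∑ ω, p ω * (W (ω i) (ω j) / (Z * mg p {i, j} ω)) ≤ 1 := by
    rw [← sum_fiberwise univ (fun ω : ι → V => (ω i, ω j))
      (fun ω => p ω * (W (ω i) (ω j) / (Z * mg p {i, j} ω)))]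
    have h2 : ∀ x : V × V, ∑ ω ∈ univ.filter (fun ω : ι → V => (ω i, ω j) = x),
        p ω * (W (ω i) (ω j) / (Z * mg p {i, j} ω)) ≤ W x.1 x.2 / Z := by
      intro x
      by_cases hx : ∃ ω, (ω i, ω j) = x ∧ 0 < p ω
      · obtain ⟨ω, rfl, hω⟩ := hx
        have h3 : (univ.filter fun ω' : ι → V => (ω' i, ω' j) = (ω i, ω j)) = cls {i, j} ω := by
          ext ω'
          rw [mem_cls, mem_filter, hcls]
          simp
        rw [h3]
        have h4 : ∑ ω' ∈ cls {i, j} ω, p ω' * (W (ω' i) (ω' j) / (Z * mg p {i, j} ω')) =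
            mg p {i, j} ω * (W (ω i) (ω j) / (Z * mg p {i, j} ω)) := by
          have h7 : mg p {i, j} ω = ∑ ω' ∈ cls {i, j} ω, p ω' := rfl
          calc ∑ ω' ∈ cls {i, j} ω, p ω' * (W (ω' i) (ω' j) / (Z * mg p {i, j} ω'))
              = ∑ ω' ∈ cls {i, j} ω, p ω' * (W (ω i) (ω j) / (Z * mg p {i, j} ω)) := by
                apply sum_congr rfl
                intro ω' hω'
                have h8 := mem_cls.mp hω'
                rw [mg_eq h8, h8 i (by simp), h8 j (by simp)]
            _ = (∑ ω' ∈ cls {i, j} ω, p ω') * (W (ω i) (ω j) / (Z * mg p {i, j} ω)) := by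
                rw [sum_mul]
            _ = mg p {i, j} ω * (W (ω i) (ω j) / (Z * mg p {i, j} ω)) := by rw [← h7]
        rw [h4]
        have h5 := mg_pos hp {i, j} hω
        apply le_of_eq
        field_simp
      · have h3 : ∑ ω ∈ univ.filter (fun ω : ι → V => (ω i, ω j) = x),
            p ω * (W (ω i) (ω j) / (Z * mg p {i, j} ω)) = 0 := by
          apply sum_eq_zero
          intro ω hω
          have h4 : p ω = 0 := by
            by_contra h5
            exact hx ⟨ω, (mem_filter.mp hω).2, lt_of_le_of_ne (hp ω) (Ne.symm h5)⟩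
          rw [h4, zero_mul]
        rw [h3]
        exact div_nonneg (hW _ _) hZ.le
    calc ∑ x : V × V, ∑ ω ∈ univ.filter (fun ω : ι → V => (ω i, ω j) = x),
          p ω * (W (ω i) (ω j) / (Z * mg p {i, j} ω))
        ≤ ∑ x : V × V, W x.1 x.2 / Z := sum_le_sum (fun x _ => h2 x)
      _ = (∑ x, ∑ y, W x y) / Z := by
          rw [← sum_div, Fintype.sum_prod_type]
      _ = 1 := by
          rw [← hZdef]
          exact div_self hZ.ne'
  have h2 : ∑ ω, p ω * (Real.log (W (ω i) (ω j)) - Real.log Z - Real.log (mg p {i, j} ω)) ≤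
      ∑ ω, (p ω * (W (ω i) (ω j) / (Z * mg p {i, j} ω)) - p ω) := by
    apply sum_le_sum
    intro ω _
    rcases eq_or_lt_of_le (hp ω) with h0 | h0
    · rw [← h0]
      simp
    · have a1 := mg_pos hp {i, j} h0
      have a2 := hS ω h0
      have e1 : Real.log (W (ω i) (ω j)) - Real.log Z - Real.log (mg p {i, j} ω) =
          Real.log (W (ω i) (ω j) / (Z * mg p {i, j} ω)) := by
        rw [Real.log_div a2.ne' (mul_pos hZ a1).ne', Real.log_mul hZ.ne' a1.ne']
        ring
      rw [e1]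
      have e2 := Real.log_le_sub_one_of_pos
        (show 0 < W (ω i) (ω j) / (Z * mg p {i, j} ω) by positivity)
      have e3 := mul_le_mul_of_nonneg_left e2 h0.le
      linarith
  rw [sum_sub_distrib, hs] at h2
  have e3 : ∑ ω, p ω * (Real.log (W (ω i) (ω j)) - Real.log Z - Real.log (mg p {i, j} ω)) =
      ∑ ω, p ω * Real.log (W (ω i) (ω j)) - Real.log Z + Hh p {i, j} := by
    unfold Hh
    have e4 : ∀ ω, p ω * (Real.log (W (ω i) (ω j)) - Real.log Z - Real.log (mg p {i, j} ω)) =
        p ω * Real.log (W (ω i) (ω j)) - p ω * Real.log Z - p ω * Real.log (mg p {i, j} ω) :=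
      fun ω => by ring
    rw [sum_congr rfl (fun ω _ => e4 ω), sum_sub_distrib, sum_sub_distrib, ← sum_mul, hs]
    ring
  linarith

/-- the entropy of a pair of coordinates with a known marginal -/
theorem hh_eq_weight {ι V : Type} [Fintype ι] [DecidableEq ι] [Fintype V] {p : (ι → V) → ℝ} (hp : ∀ ω, 0 ≤ p ω)
    (hs : ∑ ω, p ω = 1) (i j : ι) (W : V → V → ℝ) {Z : ℝ} (hZ : 0 < Z)
    (h : ∀ ω, 0 < p ω → 0 < W (ω i) (ω j) ∧ mg p {i, j} ω = W (ω i) (ω j) / Z) :
    Hh p {i, j} = Real.log Z - ∑ ω, p ω * Real.log (W (ω i) (ω j)) := by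
  unfold Hh
  have h1 : ∀ ω, p ω * Real.log (mg p {i, j} ω) =
      p ω * Real.log (W (ω i) (ω j)) - p ω * Real.log Z := by
    intro ω
    rcases eq_or_lt_of_le (hp ω) with h0 | h0
    · rw [← h0]; ring
    · obtain ⟨h2, h3⟩ := h ω h0
      rw [h3, Real.log_div h2.ne' hZ.ne']
      ring
  rw [sum_congr rfl (fun ω _ => h1 ω), sum_sub_distrib, ← sum_mul, hs]
  ring

/-- quadruples -/
def quad (V : Type) : (V × V) × (V × V) ≃ (Fin 4 → V) where
  toFun q := ![q.1.1, q.1.2, q.2.1, q.2.2]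
  invFun ω := ((ω 0, ω 1), (ω 2, ω 3))
  left_inv q := by
    obtain ⟨⟨a, b⟩, ⟨c, d⟩⟩ := q
    rfl
  right_inv ω := by
    funext i
    fin_cases i <;> rfl

theorem sum_quad {V : Type} [Fintype V] (F : (Fin 4 → V) → ℝ) :
    ∑ ω, F ω = ∑ u, ∑ v, ∑ x, ∑ w, F ![u, v, x, w] := by
  rw [← Equiv.sum_comp (quad V) F, Fintype.sum_prod_type, Fintype.sum_prod_type]
  apply sum_congr rfl
  intro u _
  apply sum_congr rfl
  intro v _
  rw [Fintype.sum_prod_type]
  rfl

theorem mg_sum {ι V : Type} [Fintype ι] [DecidableEq ι] [Fintype V] (p : (ι → V) → ℝ) (A : Finset ι)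
    (ω : ι → V) : mg p A ω = ∑ ω', if Ag A ω' ω then p ω' else 0 := by
  unfold mg cls
  rw [sum_filter]

theorem mg_pair {V : Type} [Fintype V] (p : (Fin 4 → V) → ℝ) (ω : Fin 4 → V) :
    mg p {0, 1} ω = ∑ x, ∑ w, p ![ω 0, ω 1, x, w] ∧
      mg p {2, 3} ω = ∑ u, ∑ v, p ![u, v, ω 2, ω 3] := by
  constructor
  · rw [mg_sum, sum_quad]
    have h1 : ∀ u v x w : V, Ag {0, 1} ![u, v, x, w] ω ↔ (u = ω 0 ∧ v = ω 1) := by
      intro u v x w
      unfold Ag
      simp
    rw [sum_eq_single (ω 0), sum_eq_single (ω 1)]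
    · apply sum_congr rfl
      intro x _
      apply sum_congr rfl
      intro w _
      rw [if_pos ((h1 _ _ _ _).mpr ⟨rfl, rfl⟩)]
    · intro v _ hv
      apply sum_eq_zero
      intro x _
      apply sum_eq_zero
      intro w _
      rw [if_neg (fun h => hv ((h1 _ _ _ _).mp h).2)]
    · intro h; exact absurd (mem_univ _) h
    · intro u _ hu
      apply sum_eq_zero
      intro v _
      apply sum_eq_zero
      intro x _
      apply sum_eq_zero
      intro w _
      rw [if_neg (fun h => hu ((h1 _ _ _ _).mp h).1)]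
    · intro h; exact absurd (mem_univ _) h
  · rw [mg_sum, sum_quad]
    have h1 : ∀ u v x w : V, Ag {2, 3} ![u, v, x, w] ω ↔ (x = ω 2 ∧ w = ω 3) := by
      intro u v x w
      unfold Ag
      simp
    apply sum_congr rfl
    intro u _
    apply sum_congr rfl
    intro v _
    rw [sum_eq_single (ω 2), sum_eq_single (ω 3)]
    · rw [if_pos ((h1 _ _ _ _).mpr ⟨rfl, rfl⟩)]
    · intro w _ hw
      rw [if_neg (fun h => hw ((h1 _ _ _ _).mp h).2)]
    · intro h; exact absurd (mem_univ _) h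
    · intro x _ hx
      apply sum_eq_zero
      intro w _
      rw [if_neg (fun h => hx ((h1 _ _ _ _).mp h).1)]
    · intro h; exact absurd (mem_univ _) h

/-- the ring inequality for a Markov law -/
theorem ring_ineq {V : Type} [Fintype V] {p : (Fin 4 → V) → ℝ} (hp : ∀ ω, 0 ≤ p ω)
    (h1 : Hh p {0, 1, 2} + Hh p {2, 3, 0} = Hh p univ + Hh p {0, 2})
    (h2 : Hh p {1, 2, 3} + Hh p {3, 0, 1} = Hh p univ + Hh p {1, 3}) :
    Hh p {0, 1} + Hh p {2, 3} ≤ Hh p {0, 2} + Hh p {1, 3} := by
  have h3 := submod hp {0, 1, 2} {3, 0, 1} {0, 1} (by decide) (by decide)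
  have h4 := submod hp {2, 3, 0} {1, 2, 3} {2, 3} (by decide) (by decide)
  have e1 : ({0, 1, 2} ∪ {3, 0, 1} : Finset (Fin 4)) = univ := by decide
  have e2 : ({2, 3, 0} ∪ {1, 2, 3} : Finset (Fin 4)) = univ := by decide
  rw [e1] at h3
  rw [e2] at h4
  linarith

theorem ring4 {V : Type} [Fintype V] (E1 E2 R S T T' : V → V → Prop)
    (hT : ∀ u v x w, E1 u v → R v x → E2 x w → S w u → T u x ∧ T' v w)
    (α β γ δ : V → ℝ) (hα : ∀ v, 0 ≤ α v) (hβ : ∀ v, 0 ≤ β v) (hγ : ∀ v, 0 ≤ γ v)
    (hδ : ∀ v, 0 ≤ δ v) (P : V → V → V → V → ℝ) (hP0 : ∀ u v x w, 0 ≤ P u v x w)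
    (hP1 : ∀ u v x w, P u v x w ≠ 0 → R v x ∧ S w u)
    (hrow : ∀ u v, ∑ x, ∑ w, P u v x w = if E1 u v then α u * β v else 0)
    (hcol : ∀ x w, ∑ u, ∑ v, P u v x w = if E2 x w then γ x * δ w else 0) :
    (∑ u, ∑ v, if E1 u v then α u * β v else 0) ^ 2 ≤
      (∑ u, ∑ x, if T u x then α u * γ x else 0) *
        (∑ v, ∑ w, if T' v w then β v * δ w else 0) := by
  set Z := ∑ u, ∑ v, (if E1 u v then α u * β v else 0) with hZdef
  have hpT : 0 ≤ ∑ u, ∑ x, (if T u x then α u * γ x else 0) :=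
    sum_nonneg (fun u _ => sum_nonneg (fun x _ => by
      split_ifs
      · exact mul_nonneg (hα u) (hγ x)
      · exact le_rfl))
  have hpT' : 0 ≤ ∑ v, ∑ w, (if T' v w then β v * δ w else 0) :=
    sum_nonneg (fun u _ => sum_nonneg (fun x _ => by
      split_ifs
      · exact mul_nonneg (hβ u) (hδ x)
      · exact le_rfl))
  have hZ0 : 0 ≤ Z := sum_nonneg (fun u _ => sum_nonneg (fun x _ => by
      split_ifs
      · exact mul_nonneg (hα u) (hβ x)
      · exact le_rfl))
  rcases eq_or_lt_of_le hZ0 with hZ | hZ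
  · rw [← hZ]
    simp only [ne_eq, OfNat.ofNat_ne_zero, not_false_eq_true, zero_pow]
    exact mul_nonneg hpT hpT'
  have hsum : ∑ u, ∑ v, ∑ x, ∑ w, P u v x w = Z := by
    rw [hZdef]
    apply sum_congr rfl
    intro u _
    apply sum_congr rfl
    intro v _
    exact hrow u v
  have hsum2 : ∑ x, ∑ w, (if E2 x w then γ x * δ w else 0) = Z := by
    rw [← hsum]
    calc ∑ x, ∑ w, (if E2 x w then γ x * δ w else 0)
        = ∑ x, ∑ w, ∑ u, ∑ v, P u v x w := by
          apply sum_congr rfl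
          intro x _
          apply sum_congr rfl
          intro w _
          exact (hcol x w).symm
      _ = ∑ x, ∑ u, ∑ w, ∑ v, P u v x w := by
          apply sum_congr rfl
          intro x _
          exact sum_comm
      _ = ∑ u, ∑ x, ∑ w, ∑ v, P u v x w := sum_comm
      _ = ∑ u, ∑ x, ∑ v, ∑ w, P u v x w := by
          apply sum_congr rfl
          intro u _
          apply sum_congr rfl
          intro x _
          exact sum_comm
      _ = ∑ u, ∑ v, ∑ x, ∑ w, P u v x w := by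
          apply sum_congr rfl
          intro u _
          exact sum_comm
  -- constraints
  let Q : Fin 4 → Finset (Fin 4) := ![{0, 1}, {2, 3}, {1, 2}, {3, 0}]
  let J : Fin 4 → (Fin 4 → V) → Set ℝ := fun k ω =>
    if k = 0 then {(if E1 (ω 0) (ω 1) then α (ω 0) * β (ω 1) else 0) / Z}
    else if k = 1 then {(if E2 (ω 2) (ω 3) then γ (ω 2) * δ (ω 3) else 0) / Z}
    else if k = 2 then (if R (ω 1) (ω 2) then Set.univ else {0})
    else (if S (ω 3) (ω 0) then Set.univ else {0})
  have hJ : ∀ k ω, IsClosed (J k ω) := by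
    intro k ω
    have hk : k = 0 ∨ k = 1 ∨ k = 2 ∨ k = 3 := by fin_cases k <;> simp
    rcases hk with rfl | rfl | rfl | rfl
    · simp only [J, if_true]
      exact isClosed_singleton
    · have e0 : (1 : Fin 4) ≠ 0 := by decide
      simp only [J, if_true, if_neg e0]
      exact isClosed_singleton
    · have e0 : (2 : Fin 4) ≠ 0 := by decide
      have e1 : (2 : Fin 4) ≠ 1 := by decide
      simp only [J, if_true, if_neg e0, if_neg e1]
      by_cases hR : R (ω 1) (ω 2)
      · rw [if_pos hR]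
        exact isClosed_univ
      · rw [if_neg hR]
        exact isClosed_singleton
    · have e0 : (3 : Fin 4) ≠ 0 := by decide
      have e1 : (3 : Fin 4) ≠ 1 := by decide
      have e3 : (3 : Fin 4) ≠ 2 := by decide
      simp only [J, if_neg e0, if_neg e1, if_neg e3]
      by_cases hS : S (ω 3) (ω 0)
      · rw [if_pos hS]
        exact isClosed_univ
      · rw [if_neg hS]
        exact isClosed_singleton
  have hne : (Adm Q J).Nonempty := by
    refine ⟨fun ω => P (ω 0) (ω 1) (ω 2) (ω 3) / Z, ?_, ?_, ?_⟩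
    · intro ω
      exact div_nonneg (hP0 _ _ _ _) hZ.le
    · rw [sum_quad]
      have : ∀ u v x w : V, P (![u, v, x, w] 0) (![u, v, x, w] 1) (![u, v, x, w] 2)
          (![u, v, x, w] 3) / Z = P u v x w / Z := fun u v x w => rfl
      simp only [this]
      simp only [← sum_div]
      rw [hsum]
      exact div_self hZ.ne'
    · intro k ω
      have hk : k = 0 ∨ k = 1 ∨ k = 2 ∨ k = 3 := by fin_cases k <;> simp
      rcases hk with rfl | rfl | rfl | rfl
      · simp only [J, Q, if_true, Set.mem_singleton_iff]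
        have e1 := (mg_pair (fun ω => P (ω 0) (ω 1) (ω 2) (ω 3) / Z) ω).1
        have e2 : (![({0, 1} : Finset (Fin 4)), {2, 3}, {1, 2}, {3, 0}] 0) = {0, 1} := rfl
        rw [e2, e1]
        have : ∀ x w : V, P (![ω 0, ω 1, x, w] 0) (![ω 0, ω 1, x, w] 1) (![ω 0, ω 1, x, w] 2)
          (![ω 0, ω 1, x, w] 3) / Z = P (ω 0) (ω 1) x w / Z := fun x w => rfl
        simp only [this]
        simp only [← sum_div]
        rw [hrow]
      · have e0 : (1 : Fin 4) ≠ 0 := by decide
        simp only [J, Q, if_true, if_neg e0, Set.mem_singleton_iff]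
        have e1 := (mg_pair (fun ω => P (ω 0) (ω 1) (ω 2) (ω 3) / Z) ω).2
        have e2 : (![({0, 1} : Finset (Fin 4)), {2, 3}, {1, 2}, {3, 0}] 1) = {2, 3} := rfl
        rw [e2, e1]
        have : ∀ u v : V, P (![u, v, ω 2, ω 3] 0) (![u, v, ω 2, ω 3] 1) (![u, v, ω 2, ω 3] 2)
          (![u, v, ω 2, ω 3] 3) / Z = P u v (ω 2) (ω 3) / Z := fun u v => rfl
        simp only [this]
        simp only [← sum_div]
        rw [hcol]
      · have e0 : (2 : Fin 4) ≠ 0 := by decide
        have e1 : (2 : Fin 4) ≠ 1 := by decide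
        simp only [J, Q, if_true, if_neg e0, if_neg e1]
        by_cases hR : R (ω 1) (ω 2)
        · rw [if_pos hR]
          exact Set.mem_univ _
        · rw [if_neg hR, Set.mem_singleton_iff]
          have e2 : (![({0, 1} : Finset (Fin 4)), {2, 3}, {1, 2}, {3, 0}] 2) = {1, 2} := rfl
          rw [e2]
          unfold mg
          apply sum_eq_zero
          intro ω' hω'
          have h1 := mem_cls.mp hω' 1 (by decide)
          have h2 := mem_cls.mp hω' 2 (by decide)
          have h3 : P (ω' 0) (ω' 1) (ω' 2) (ω' 3) = 0 := by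
            by_contra h4
            have h5 := (hP1 _ _ _ _ h4).1
            rw [h1, h2] at h5
            exact hR h5
          rw [h3, zero_div]
      · have e0 : (3 : Fin 4) ≠ 0 := by decide
        have e1 : (3 : Fin 4) ≠ 1 := by decide
        have e3 : (3 : Fin 4) ≠ 2 := by decide
        simp only [J, Q, if_neg e0, if_neg e1, if_neg e3]
        by_cases hS : S (ω 3) (ω 0)
        · rw [if_pos hS]
          exact Set.mem_univ _
        · rw [if_neg hS, Set.mem_singleton_iff]
          have e2 : (![({0, 1} : Finset (Fin 4)), {2, 3}, {1, 2}, {3, 0}] 3) = {3, 0} := rfl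
          rw [e2]
          unfold mg
          apply sum_eq_zero
          intro ω' hω'
          have h1 := mem_cls.mp hω' 3 (by decide)
          have h2 := mem_cls.mp hω' 0 (by decide)
          have h3 : P (ω' 0) (ω' 1) (ω' 2) (ω' 3) = 0 := by
            by_contra h4
            have h5 := (hP1 _ _ _ _ h4).2
            rw [h1, h2] at h5
            exact hS h5
          rw [h3, zero_div]
  obtain ⟨p, hpA, hmk⟩ := exists_markov Q J hJ hne
  have hp := hpA.1
  have hs := hpA.2.1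
  have m1 := hmk {0, 1, 2} {2, 3, 0} (by decide) (by decide)
  have m2 := hmk {1, 2, 3} {3, 0, 1} (by decide) (by decide)
  have e1 : ({0, 1, 2} ∩ {2, 3, 0} : Finset (Fin 4)) = {0, 2} := by decide
  have e2 : ({1, 2, 3} ∩ {3, 0, 1} : Finset (Fin 4)) = {1, 3} := by decide
  rw [e1] at m1
  rw [e2] at m2
  have hring := ring_ineq hp m1 m2
  -- marginals
  have hm0 : ∀ ω, mg p {0, 1} ω = (if E1 (ω 0) (ω 1) then α (ω 0) * β (ω 1) else 0) / Z := by
    intro ω
    have h := hpA.2.2 0 ω
    simp only [J, Q, if_true, Set.mem_singleton_iff] at h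
    exact h
  have hm1 : ∀ ω, mg p {2, 3} ω = (if E2 (ω 2) (ω 3) then γ (ω 2) * δ (ω 3) else 0) / Z := by
    intro ω
    have e0 : (1 : Fin 4) ≠ 0 := by decide
    have h := hpA.2.2 1 ω
    simp only [J, Q, if_true, if_neg e0, Set.mem_singleton_iff] at h
    exact h
  have hR : ∀ ω, 0 < p ω → R (ω 1) (ω 2) := by
    intro ω hω
    by_contra hR
    have e0 : (2 : Fin 4) ≠ 0 := by decide
    have e1 : (2 : Fin 4) ≠ 1 := by decide
    have h := hpA.2.2 2 ω
    simp only [J, Q, if_true, if_neg e0, if_neg e1, if_neg hR, Set.mem_singleton_iff] at h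
    exact absurd h (mg_pos hp _ hω).ne'
  have hSS : ∀ ω, 0 < p ω → S (ω 3) (ω 0) := by
    intro ω hω
    by_contra hS
    have e0 : (3 : Fin 4) ≠ 0 := by decide
    have e1 : (3 : Fin 4) ≠ 1 := by decide
    have e3 : (3 : Fin 4) ≠ 2 := by decide
    have h := hpA.2.2 3 ω
    simp only [J, Q, if_neg e0, if_neg e1, if_neg e3, if_neg hS, Set.mem_singleton_iff] at h
    exact absurd h (mg_pos hp _ hω).ne'
  have hE1 : ∀ ω, 0 < p ω → E1 (ω 0) (ω 1) ∧ 0 < α (ω 0) ∧ 0 < β (ω 1) := by
    intro ω hω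
    have h1 := mg_pos hp {0, 1} hω
    rw [hm0] at h1
    by_cases hE : E1 (ω 0) (ω 1)
    · rw [if_pos hE] at h1
      have h2 : 0 < α (ω 0) * β (ω 1) := by
        by_contra h3
        push Not at h3
        have := div_nonpos_of_nonpos_of_nonneg h3 hZ.le
        linarith
      refine ⟨hE, ?_, ?_⟩
      · exact lt_of_le_of_ne (hα _) (fun h4 => by rw [← h4, zero_mul] at h2; exact lt_irrefl _ h2)
      · exact lt_of_le_of_ne (hβ _) (fun h4 => by rw [← h4, mul_zero] at h2; exact lt_irrefl _ h2)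
    · rw [if_neg hE, zero_div] at h1
      exact absurd h1 (lt_irrefl _)
  have hE2 : ∀ ω, 0 < p ω → E2 (ω 2) (ω 3) ∧ 0 < γ (ω 2) ∧ 0 < δ (ω 3) := by
    intro ω hω
    have h1 := mg_pos hp {2, 3} hω
    rw [hm1] at h1
    by_cases hE : E2 (ω 2) (ω 3)
    · rw [if_pos hE] at h1
      have h2 : 0 < γ (ω 2) * δ (ω 3) := by
        by_contra h3
        push Not at h3
        have := div_nonpos_of_nonpos_of_nonneg h3 hZ.le
        linarith
      refine ⟨hE, ?_, ?_⟩
      · exact lt_of_le_of_ne (hγ _) (fun h4 => by rw [← h4, zero_mul] at h2; exact lt_irrefl _ h2)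
      · exact lt_of_le_of_ne (hδ _) (fun h4 => by rw [← h4, mul_zero] at h2; exact lt_irrefl _ h2)
    · rw [if_neg hE, zero_div] at h1
      exact absurd h1 (lt_irrefl _)
  have hTT : ∀ ω, 0 < p ω → T (ω 0) (ω 2) ∧ T' (ω 1) (ω 3) := fun ω hω =>
    hT _ _ _ _ (hE1 ω hω).1 (hR ω hω) (hE2 ω hω).1 (hSS ω hω)
  -- entropies
  have q1 := hh_eq_weight hp hs 0 1 (fun u v => if E1 u v then α u * β v else 0) hZ (by
    intro ω hω
    refine ⟨?_, hm0 ω⟩
    simp only [if_pos (hE1 ω hω).1]
    exact mul_pos (hE1 ω hω).2.1 (hE1 ω hω).2.2)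
  have q2 := hh_eq_weight hp hs 2 3 (fun u v => if E2 u v then γ u * δ v else 0) hZ (by
    intro ω hω
    refine ⟨?_, hm1 ω⟩
    simp only [if_pos (hE2 ω hω).1]
    exact mul_pos (hE2 ω hω).2.1 (hE2 ω hω).2.2)
  have q3 := hh_le_weight hp hs 0 2 (fun u v => if T u v then α u * γ v else 0) (by
    intro x y
    split_ifs
    · exact mul_nonneg (hα _) (hγ _)
    · exact le_rfl) (by
    intro ω hω
    simp only [if_pos (hTT ω hω).1]
    exact mul_pos (hE1 ω hω).2.1 (hE2 ω hω).2.1)
  have q4 := hh_le_weight hp hs 1 3 (fun u v => if T' u v then β u * δ v else 0) (by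
    intro x y
    split_ifs
    · exact mul_nonneg (hβ _) (hδ _)
    · exact le_rfl) (by
    intro ω hω
    simp only [if_pos (hTT ω hω).2]
    exact mul_pos (hE1 ω hω).2.2 (hE2 ω hω).2.2)
  have hlog : ∑ ω, p ω * Real.log (if E1 (ω 0) (ω 1) then α (ω 0) * β (ω 1) else 0) +
      ∑ ω, p ω * Real.log (if E2 (ω 2) (ω 3) then γ (ω 2) * δ (ω 3) else 0) =
      ∑ ω, p ω * Real.log (if T (ω 0) (ω 2) then α (ω 0) * γ (ω 2) else 0) +
      ∑ ω, p ω * Real.log (if T' (ω 1) (ω 3) then β (ω 1) * δ (ω 3) else 0) := by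
    rw [← sum_add_distrib, ← sum_add_distrib]
    apply sum_congr rfl
    intro ω _
    rcases eq_or_lt_of_le (hp ω) with h0 | h0
    · rw [← h0]; ring
    · rw [if_pos (hE1 ω h0).1, if_pos (hE2 ω h0).1, if_pos (hTT ω h0).1, if_pos (hTT ω h0).2]
      have a1 := (hE1 ω h0).2.1
      have a2 := (hE1 ω h0).2.2
      have a3 := (hE2 ω h0).2.1
      have a4 := (hE2 ω h0).2.2
      rw [Real.log_mul a1.ne' a2.ne', Real.log_mul a3.ne' a4.ne', Real.log_mul a1.ne' a3.ne',
        Real.log_mul a2.ne' a4.ne']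
      ring
  have hex : ∃ ω, 0 < p ω := by
    by_contra hc
    push Not at hc
    have h0 : ∀ ω, p ω = 0 := fun ω => le_antisymm (hc ω) (hp ω)
    rw [sum_congr rfl (fun ω _ => h0 ω), sum_const_zero] at hs
    norm_num at hs
  obtain ⟨ω, hω⟩ := hex
  have posT : 0 < ∑ u, ∑ x, (if T u x then α u * γ x else 0) := by
    have h2 : 0 < (if T (ω 0) (ω 2) then α (ω 0) * γ (ω 2) else 0) := by
      rw [if_pos (hTT ω hω).1]
      exact mul_pos (hE1 ω hω).2.1 (hE2 ω hω).2.1
    have h3 : (if T (ω 0) (ω 2) then α (ω 0) * γ (ω 2) else 0) ≤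
        ∑ y, (if T (ω 0) y then α (ω 0) * γ y else 0) :=
      single_le_sum (f := fun y => if T (ω 0) y then α (ω 0) * γ y else 0) (fun y _ => by
        split_ifs
        · exact mul_nonneg (hα _) (hγ _)
        · exact le_rfl) (mem_univ _)
    have h4 : ∑ y, (if T (ω 0) y then α (ω 0) * γ y else 0) ≤
        ∑ u, ∑ x, (if T u x then α u * γ x else 0) :=
      single_le_sum (f := fun u => ∑ x, (if T u x then α u * γ x else 0))
        (fun x _ => sum_nonneg (fun y _ => by
          split_ifs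
          · exact mul_nonneg (hα _) (hγ _)
          · exact le_rfl)) (mem_univ _)
    linarith
  have posT' : 0 < ∑ u, ∑ x, (if T' u x then β u * δ x else 0) := by
    have h2 : 0 < (if T' (ω 1) (ω 3) then β (ω 1) * δ (ω 3) else 0) := by
      rw [if_pos (hTT ω hω).2]
      exact mul_pos (hE1 ω hω).2.2 (hE2 ω hω).2.2
    have h3 : (if T' (ω 1) (ω 3) then β (ω 1) * δ (ω 3) else 0) ≤
        ∑ y, (if T' (ω 1) y then β (ω 1) * δ y else 0) :=
      single_le_sum (f := fun y => if T' (ω 1) y then β (ω 1) * δ y else 0) (fun y _ => by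
        split_ifs
        · exact mul_nonneg (hβ _) (hδ _)
        · exact le_rfl) (mem_univ _)
    have h4 : ∑ y, (if T' (ω 1) y then β (ω 1) * δ y else 0) ≤
        ∑ u, ∑ x, (if T' u x then β u * δ x else 0) :=
      single_le_sum (f := fun u => ∑ x, (if T' u x then β u * δ x else 0))
        (fun x _ => sum_nonneg (fun y _ => by
          split_ifs
          · exact mul_nonneg (hβ _) (hδ _)
          · exact le_rfl)) (mem_univ _)
    linarith
  have hfin : Real.log (Z ^ 2) ≤ Real.log ((∑ u, ∑ x, if T u x then α u * γ x else 0) *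
        (∑ v, ∑ w, if T' v w then β v * δ w else 0)) := by
    rw [Real.log_pow, Real.log_mul posT.ne' posT'.ne']
    push_cast
    linarith
  exact (Real.log_le_log_iff (by positivity) (mul_pos posT posT')).mp hfin

end Pool.Agent.Helper61_ENT
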