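import Pool.Agent.Helper61_ENT.Master

/-!
# The ring inequality for a stationary law, helper61
-/

namespace Pool.Agent.Helper61_ENT

open Finset
open scoped Classical

theorem stat_out {V : Type} [Fintype V] (m : V → V → ℝ) (q w : V → ℝ) (R S T : V → V → Prop)
    (hm : ∀ u v, 0 ≤ m u v) (hsum : ∑ u, ∑ v, m u v = 1)
    (htail : ∀ u, ∑ v, m u v = q u) (hhead : ∀ v, ∑ u, m u v = q v)
    (hT : ∀ u v x y, 0 < m u v → R v x → 0 < m x y → S y u → T u x ∧ T v y)
    (P : V → V → V → V → ℝ) (hP0 : ∀ u v x y, 0 ≤ P u v x y)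
    (hP1 : ∀ u v x y, P u v x y ≠ 0 → R v x ∧ S y u)
    (hrow : ∀ u v, ∑ x, ∑ y, P u v x y = m u v)
    (hcol : ∀ x y, ∑ u, ∑ v, P u v x y = m x y) (hw : ∀ v, 0 < w v) :
    (∑ u, ∑ v, m u v * (Real.log (w v) + Real.log (q u) - Real.log (m u v))) ≤
      ∑ v, q v * Real.log (∑ x, if T v x then w x else 0) := by
  set τ : V → ℝ := fun v => ∑ x, if T v x then w x else 0 with hτ
  have hq : ∀ v, 0 ≤ q v := by
    intro v
    rw [← htail]
    exact sum_nonneg (fun x _ => hm v x)
  have hτ0 : ∀ v, 0 ≤ τ v := by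
    intro v
    apply sum_nonneg
    intro x _
    split_ifs
    · exact (hw x).le
    · exact le_rfl
  have hsq : ∑ v, q v = 1 := by
    rw [← hsum]
    exact sum_congr rfl (fun u _ => (htail u).symm)
  have hpT : ∀ v x, T v x → 0 < τ v := by
    intro v x h
    have h1 : (if T v x then w x else 0) ≤ τ v :=
      single_le_sum (f := fun x => if T v x then w x else 0) (fun y _ => by
        split_ifs
        · exact (hw y).le
        · exact le_rfl) (mem_univ x)
    rw [if_pos h] at h1
    exact lt_of_lt_of_le (hw x) h1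
  have hex : ∀ u v, 0 < m u v → ∃ x y, T u x ∧ T v y := by
    intro u v h
    rw [← hrow u v] at h
    obtain ⟨x, -, hx⟩ := exists_ne_zero_of_sum_ne_zero h.ne'
    obtain ⟨y, -, hy⟩ := exists_ne_zero_of_sum_ne_zero hx
    refine ⟨x, y, ?_⟩
    have h1 := hP1 _ _ _ _ hy
    have h2 : 0 < m x y := by
      rw [← hcol x y]
      have h3 : P u v x y ≤ ∑ v', P u v' x y :=
        single_le_sum (f := fun v' => P u v' x y) (fun v' _ => hP0 _ _ _ _) (mem_univ v)
      have h4 : ∑ v', P u v' x y ≤ ∑ u', ∑ v', P u' v' x y :=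
        single_le_sum (f := fun u' => ∑ v', P u' v' x y)
          (fun u' _ => sum_nonneg (fun v' _ => hP0 _ _ _ _)) (mem_univ u)
      have h5 : 0 < P u v x y := lt_of_le_of_ne (hP0 _ _ _ _) (Ne.symm hy)
      linarith
    rw [hrow] at h
    exact hT _ _ _ _ h h1.1 h2 h1.2
  have hqpos : ∀ u v, 0 < m u v → 0 < q u ∧ 0 < q v := by
    intro u v h
    constructor
    · rw [← htail]
      exact lt_of_lt_of_le h (single_le_sum (f := fun x => m u x) (fun x _ => hm u x)
        (mem_univ v))
    · rw [← hhead]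
      exact lt_of_lt_of_le h (single_le_sum (f := fun x => m x v) (fun x _ => hm x v)
        (mem_univ u))
  have key := ring_master m m R S T T hm hm hsum hT P hP0 hP1 hrow hcol
    (fun v => q v / τ v) w (fun v => q v / τ v) w (fun v => div_nonneg (hq v) (hτ0 v))
    (fun v => (hw v).le) (fun v => div_nonneg (hq v) (hτ0 v)) (fun v => (hw v).le)
    (by
      intro u v h
      obtain ⟨x, y, h1, h2⟩ := hex u v h
      obtain ⟨h3, h4⟩ := hqpos u v h
      exact ⟨div_pos h3 (hpT _ _ h1), div_pos h4 (hpT _ _ h2)⟩)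
    (fun x y _ => ⟨hw x, hw y⟩)
  have hlog : Real.log (∑ u, ∑ x, if T u x then q u / τ u * w x else 0) ≤ 0 := by
    apply Real.log_nonpos
    · apply sum_nonneg
      intro u _
      apply sum_nonneg
      intro x _
      split_ifs
      · exact mul_nonneg (div_nonneg (hq u) (hτ0 u)) (hw x).le
      · exact le_rfl
    · rw [← hsq]
      apply sum_le_sum
      intro u _
      have h1 : ∑ x, (if T u x then q u / τ u * w x else 0) = q u / τ u * τ u := by
        rw [hτ]
        simp only
        rw [mul_sum]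
        apply sum_congr rfl
        intro x _
        by_cases h : T u x
        · rw [if_pos h, if_pos h]
        · rw [if_neg h, if_neg h, mul_zero]
      rw [h1]
      by_cases h2 : τ u = 0
      · rw [h2, mul_zero]
        exact hq u
      · rw [div_mul_cancel₀ _ h2]
  -- expectations of functions of the tail and of the head
  have ht : ∀ F : V → ℝ, ∑ u, ∑ v, m u v * F u = ∑ v, q v * F v := by
    intro F
    apply sum_congr rfl
    intro u _
    rw [← sum_mul, htail]
  have hh : ∀ F : V → ℝ, ∑ u, ∑ v, m u v * F v = ∑ v, q v * F v := by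
    intro F
    rw [sum_comm]
    apply sum_congr rfl
    intro v _
    rw [← sum_mul, hhead]
  have e1 : (∑ u, ∑ v, m u v * (Real.log (q u / τ u) + Real.log (q v / τ v) -
      Real.log (m u v))) = 2 * ∑ v, q v * Real.log (q v) - 2 * ∑ v, q v * Real.log (τ v) -
      ∑ u, ∑ v, m u v * Real.log (m u v) := by
    have h1 : ∀ u v, m u v * (Real.log (q u / τ u) + Real.log (q v / τ v) -
        Real.log (m u v)) = m u v * Real.log (q u) + m u v * Real.log (q v) -
        m u v * Real.log (τ u) - m u v * Real.log (τ v) - m u v * Real.log (m u v) := by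
      intro u v
      rcases eq_or_lt_of_le (hm u v) with h0 | h0
      · rw [← h0]; ring
      · obtain ⟨x, y, h1, h2⟩ := hex u v h0
        obtain ⟨h3, h4⟩ := hqpos u v h0
        rw [Real.log_div h3.ne' (hpT _ _ h1).ne', Real.log_div h4.ne' (hpT _ _ h2).ne']
        ring
    simp only [h1, sum_sub_distrib, sum_add_distrib]
    rw [ht (fun u => Real.log (q u)), hh (fun v => Real.log (q v)),
      ht (fun u => Real.log (τ u)), hh (fun v => Real.log (τ v))]
    ring
  have e2 : (∑ u, ∑ v, m u v * (Real.log (w u) + Real.log (w v) - Real.log (m u v))) =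
      2 * ∑ v, q v * Real.log (w v) - ∑ u, ∑ v, m u v * Real.log (m u v) := by
    have h1 : ∀ u v, m u v * (Real.log (w u) + Real.log (w v) - Real.log (m u v)) =
        m u v * Real.log (w u) + m u v * Real.log (w v) - m u v * Real.log (m u v) :=
      fun u v => by ring
    simp only [h1, sum_sub_distrib, sum_add_distrib]
    rw [ht (fun u => Real.log (w u)), hh (fun v => Real.log (w v))]
    ring
  have e3 : (∑ u, ∑ v, m u v * (Real.log (w v) + Real.log (q u) - Real.log (m u v))) =
      ∑ v, q v * Real.log (w v) + ∑ v, q v * Real.log (q v) -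
        ∑ u, ∑ v, m u v * Real.log (m u v) := by
    have h1 : ∀ u v, m u v * (Real.log (w v) + Real.log (q u) - Real.log (m u v)) =
        m u v * Real.log (w v) + m u v * Real.log (q u) - m u v * Real.log (m u v) :=
      fun u v => by ring
    simp only [h1, sum_sub_distrib, sum_add_distrib]
    rw [hh (fun v => Real.log (w v)), ht (fun u => Real.log (q u))]
  rw [e1, e2] at key
  rw [e3]
  have e4 : ∑ v, q v * Real.log (∑ x, if T v x then w x else 0) = ∑ v, q v * Real.log (τ v) :=
    rfl
  rw [e4]
  linarith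

theorem stat_in {V : Type} [Fintype V] (m : V → V → ℝ) (q w : V → ℝ) (R S T : V → V → Prop)
    (hm : ∀ u v, 0 ≤ m u v) (hsum : ∑ u, ∑ v, m u v = 1)
    (htail : ∀ u, ∑ v, m u v = q u) (hhead : ∀ v, ∑ u, m u v = q v)
    (hT : ∀ u v x y, 0 < m u v → R v x → 0 < m x y → S y u → T u x ∧ T v y)
    (P : V → V → V → V → ℝ) (hP0 : ∀ u v x y, 0 ≤ P u v x y)
    (hP1 : ∀ u v x y, P u v x y ≠ 0 → R v x ∧ S y u)
    (hrow : ∀ u v, ∑ x, ∑ y, P u v x y = m u v)
    (hcol : ∀ x y, ∑ u, ∑ v, P u v x y = m x y) (hw : ∀ v, 0 < w v) :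
    (∑ u, ∑ v, m u v * (Real.log (w v) + Real.log (q u) - Real.log (m u v))) ≤
      ∑ v, q v * Real.log (∑ x, if T x v then w x else 0) := by
  have h := stat_out (fun u v => m v u) q w (fun u v => R v u) (fun u v => S v u)
    (fun u v => T v u) (fun u v => hm v u) (by rw [sum_comm]; exact hsum) hhead htail
    (by
      intro u v x y h1 h2 h3 h4
      have h5 := hT y x v u h3 h2 h1 h4
      exact ⟨h5.2, h5.1⟩)
    (fun u v x y => P y x v u) (fun u v x y => hP0 _ _ _ _)
    (fun u v x y h1 => hP1 _ _ _ _ h1)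
    (by
      intro u v
      rw [sum_comm]
      exact hcol v u)
    (by
      intro x y
      rw [sum_comm]
      exact hrow y x) hw
  have ht : ∀ F : V → ℝ, ∑ u, ∑ v, m u v * F u = ∑ v, q v * F v := by
    intro F
    apply sum_congr rfl
    intro u _
    rw [← sum_mul, htail]
  have hh : ∀ F : V → ℝ, ∑ u, ∑ v, m u v * F v = ∑ v, q v * F v := by
    intro F
    rw [sum_comm]
    apply sum_congr rfl
    intro v _
    rw [← sum_mul, hhead]
  have e3 : (∑ u, ∑ v, m u v * (Real.log (w v) + Real.log (q u) - Real.log (m u v))) =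
      ∑ v, q v * Real.log (w v) + ∑ v, q v * Real.log (q v) -
        ∑ u, ∑ v, m u v * Real.log (m u v) := by
    have h1 : ∀ u v, m u v * (Real.log (w v) + Real.log (q u) - Real.log (m u v)) =
        m u v * Real.log (w v) + m u v * Real.log (q u) - m u v * Real.log (m u v) :=
      fun u v => by ring
    simp only [h1, sum_sub_distrib, sum_add_distrib]
    rw [hh (fun v => Real.log (w v)), ht (fun u => Real.log (q u))]
  have e4 : (∑ u, ∑ v, m v u * (Real.log (w v) + Real.log (q u) - Real.log (m v u))) =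
      ∑ v, q v * Real.log (w v) + ∑ v, q v * Real.log (q v) -
        ∑ u, ∑ v, m u v * Real.log (m u v) := by
    rw [sum_comm]
    have h1 : ∀ u v, m u v * (Real.log (w u) + Real.log (q v) - Real.log (m u v)) =
        m u v * Real.log (w u) + m u v * Real.log (q v) - m u v * Real.log (m u v) :=
      fun u v => by ring
    simp only [h1, sum_sub_distrib, sum_add_distrib]
    rw [ht (fun v => Real.log (w v)), hh (fun u => Real.log (q u))]
  rw [e3, ← e4]
  exact h

end Pool.Agent.Helper61_ENT
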