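import Pool.Agent.Helper61_ENT.Stat

/-!
# The triangle case of the Caccetta-Haggkvist conjecture and 4-rings of arcs, helper61
-/

namespace Pool.Agent.Helper61_ENT

open Finset
open scoped Classical

/-- The pair of arcs `u → v`, `x → y` is ringed: there is no directed path of length 2 from `u` to
`y`, and no directed path of length 1 or 2 from `x` to `v`. -/
def Ringed {V : Type} (D : V → V → Prop) (u v x y : V) : Prop :=
  (∀ z, ¬ (D u z ∧ D z y)) ∧ (∀ z, ¬ (D x z ∧ D z v)) ∧ ¬ D x v

/-- The weight `m` on the pairs has a coupling with itself (a nonnegative matrix indexed by pairs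
with all row and column sums given by `m`) which lives on ringed pairs. -/
def SelfCoupled {V : Type} [Fintype V] (D : V → V → Prop) (m : V → V → ℝ) : Prop :=
  ∃ P : V → V → V → V → ℝ, (∀ u v x y, 0 ≤ P u v x y) ∧
    (∀ u v x y, P u v x y ≠ 0 → Ringed D u v x y) ∧
    (∀ u v, ∑ x, ∑ y, P u v x y = m u v) ∧ (∀ x y, ∑ u, ∑ v, P u v x y = m x y)

/-- nonadjacent distinct -/
def Non {V : Type} (D : V → V → Prop) (u x : V) : Prop := u ≠ x ∧ ¬ D u x ∧ ¬ D x u

theorem non_of_ringed {V : Type} (D : V → V → Prop) {u v x y : V} (h1 : D u v) (h2 : D x y)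
    (h3 : Ringed D u v x y) : Non D u x ∧ Non D v y := by
  obtain ⟨a, b, c⟩ := h3
  refine ⟨⟨?_, ?_, ?_⟩, ⟨?_, ?_, ?_⟩⟩
  · rintro rfl
    exact c h1
  · intro h
    exact a x ⟨h, h2⟩
  · intro h
    exact b u ⟨h, h1⟩
  · rintro rfl
    exact c h2
  · intro h
    exact a v ⟨h1, h⟩
  · intro h
    exact b y ⟨h2, h⟩

/-- Gibbs for the out-neighbourhoods -/
theorem gibbs_out {V : Type} [Fintype V] (D : V → V → Prop) (m : V → V → ℝ) (q w : V → ℝ)
    (hm : ∀ u v, 0 ≤ m u v) (hsupp : ∀ u v, m u v ≠ 0 → D u v)
    (htail : ∀ u, ∑ v, m u v = q u) (hw : ∀ v, 0 < w v) :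
    (∑ u, ∑ v, m u v * (Real.log (w v) + Real.log (q u) - Real.log (m u v))) ≤
      ∑ v, q v * Real.log (∑ x, if D v x then w x else 0) := by
  apply sum_le_sum
  intro u _
  have hq : 0 ≤ q u := by
    rw [← htail]
    exact sum_nonneg (fun x _ => hm u x)
  set t := ∑ x, (if D u x then w x else 0) with ht
  have ht0 : 0 ≤ t := by
    apply sum_nonneg
    intro x _
    split_ifs
    · exact (hw x).le
    · exact le_rfl
  rcases eq_or_lt_of_le hq with h0 | h0
  · have h1 : ∀ v, m u v = 0 := by
      intro v
      have h2 : m u v ≤ q u := by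
        rw [← htail]
        exact single_le_sum (f := fun x => m u x) (fun x _ => hm u x) (mem_univ v)
      rw [← h0] at h2
      exact le_antisymm h2 (hm u v)
    rw [← h0]
    simp [h1]
  · have hex : ∃ v, m u v ≠ 0 := by
      by_contra hc
      push Not at hc
      rw [← htail] at h0
      rw [sum_congr rfl (fun v _ => hc v), sum_const_zero] at h0
      exact lt_irrefl _ h0
    obtain ⟨v0, hv0⟩ := hex
    have htpos : 0 < t := by
      have h1 : (if D u v0 then w v0 else 0) ≤ t :=
        single_le_sum (f := fun x => if D u x then w x else 0) (fun y _ => by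
          split_ifs
          · exact (hw y).le
          · exact le_rfl) (mem_univ v0)
      rw [if_pos (hsupp _ _ hv0)] at h1
      exact lt_of_lt_of_le (hw v0) h1
    have h1 : ∀ v, m u v * (Real.log (w v) + Real.log (q u) - Real.log (m u v)) ≤
        m u v * Real.log t + ((if D u v then w v else 0) * (q u / t) - m u v) := by
      intro v
      rcases eq_or_lt_of_le (hm u v) with h2 | h2
      · rw [← h2]
        simp only [zero_mul, sub_zero, zero_add]
        split_ifs
        · exact mul_nonneg (hw v).le (div_nonneg hq ht0)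
        · simp
      · rw [if_pos (hsupp _ _ h2.ne')]
        have h3 := Real.log_le_sub_one_of_pos
          (show 0 < w v * q u / (m u v * t) by
            have := hw v
            positivity)
        rw [Real.log_div (mul_pos (hw v) h0).ne' (mul_pos h2 htpos).ne',
          Real.log_mul (hw v).ne' h0.ne', Real.log_mul h2.ne' htpos.ne'] at h3
        have h4 := mul_le_mul_of_nonneg_left h3 h2.le
        have h5 : m u v * (w v * q u / (m u v * t) - 1) = w v * (q u / t) - m u v := by
          field_simp
        rw [h5] at h4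
        linarith
    calc ∑ v, m u v * (Real.log (w v) + Real.log (q u) - Real.log (m u v))
        ≤ ∑ v, (m u v * Real.log t + ((if D u v then w v else 0) * (q u / t) - m u v)) :=
          sum_le_sum (fun v _ => h1 v)
      _ = q u * Real.log t := by
          rw [sum_add_distrib, sum_sub_distrib, ← sum_mul, ← sum_mul, htail, ← ht]
          field_simp
          ring

theorem gibbs_in {V : Type} [Fintype V] (D : V → V → Prop) (m : V → V → ℝ) (q w : V → ℝ)
    (hm : ∀ u v, 0 ≤ m u v) (hsupp : ∀ u v, m u v ≠ 0 → D u v)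
    (htail : ∀ u, ∑ v, m u v = q u) (hhead : ∀ v, ∑ u, m u v = q v) (hw : ∀ v, 0 < w v) :
    (∑ u, ∑ v, m u v * (Real.log (w v) + Real.log (q u) - Real.log (m u v))) ≤
      ∑ v, q v * Real.log (∑ x, if D x v then w x else 0) := by
  have h := gibbs_out (fun u v => D v u) (fun u v => m v u) q w (fun u v => hm v u)
    (fun u v h => hsupp v u h) hhead hw
  have ht : ∀ F : V → ℝ, ∑ u, ∑ v, m u v * F u = ∑ v, q v * F v := by
    intro F
    apply sum_congr rfl
    intro u _
    rw [← sum_mul, htail]
  have hh : ∀ F : V → ℝ, ∑ u, ∑ v, m u v * F v = ∑ v, q v * F v := by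
    intro F
    rw [sum_comm]
    apply sum_congr rfl
    intro v _
    rw [← sum_mul, hhead]
  have e3 : (∑ u, ∑ v, m u v * (Real.log (w v) + Real.log (q u) - Real.log (m u v))) =
      ∑ v, q v * Real.log (w v) + ∑ v, q v * Real.log (q v) -
        ∑ u, ∑ v, m u v * Real.log (m u v) := by
    have h1 : ∀ u v, m u v * (Real.log (w v) + Real.log (q u) - Real.log (m u v)) =
        m u v * Real.log (w v) + m u v * Real.log (q u) - m u v * Real.log (m u v) :=
      fun u v => by ring
    simp only [h1, sum_sub_distrib, sum_add_distrib]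
    rw [hh (fun v => Real.log (w v)), ht (fun u => Real.log (q u))]
  have e4 : (∑ u, ∑ v, m v u * (Real.log (w v) + Real.log (q u) - Real.log (m v u))) =
      ∑ v, q v * Real.log (w v) + ∑ v, q v * Real.log (q v) -
        ∑ u, ∑ v, m u v * Real.log (m u v) := by
    rw [sum_comm]
    have h1 : ∀ u v, m u v * (Real.log (w u) + Real.log (q v) - Real.log (m u v)) =
        m u v * Real.log (w u) + m u v * Real.log (q v) - m u v * Real.log (m u v) :=
      fun u v => by ring
    simp only [h1, sum_sub_distrib, sum_add_distrib]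
    rw [ht (fun v => Real.log (w v)), hh (fun u => Real.log (q u))]
  rw [e3, ← e4]
  exact h

theorem log_three {a b c M : ℝ} (ha : 0 < a) (hb : 0 < b) (hc : 0 < c) (h : a + b + c ≤ M) :
    Real.log a + Real.log b + Real.log c ≤ 3 * (Real.log M - Real.log 3) := by
  have hM : 0 < M := by linarith
  have hs : 0 < M / 3 := by positivity
  have h1 : ∀ x : ℝ, 0 < x → Real.log x ≤ Real.log (M / 3) + (x / (M / 3) - 1) := by
    intro x hx
    have h2 := Real.log_le_sub_one_of_pos (show 0 < x / (M / 3) by positivity)
    rw [Real.log_div hx.ne' hs.ne'] at h2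
    linarith
  have h2 := h1 a ha
  have h3 := h1 b hb
  have h4 := h1 c hc
  have h5 : a / (M / 3) + b / (M / 3) + c / (M / 3) ≤ 3 := by
    rw [← add_div, ← add_div, div_le_iff₀ hs]
    linarith
  have h6 : Real.log (M / 3) = Real.log M - Real.log 3 := Real.log_div hM.ne' (by norm_num)
  rw [h6] at h2 h3 h4
  linarith

/-- the inequality for stationary laws -/
theorem stationary {V : Type} [Fintype V] (D : V → V → Prop) (hloop : ∀ v, ¬ D v v)
    (hdig : ∀ u v, D u v → ¬ D v u) (m : V → V → ℝ) (hm : ∀ u v, 0 ≤ m u v)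
    (hsupp : ∀ u v, m u v ≠ 0 → D u v) (hsum : ∑ u, ∑ v, m u v = 1) (q : V → ℝ)
    (htail : ∀ u, ∑ v, m u v = q u) (hhead : ∀ v, ∑ u, m u v = q v)
    (hc : SelfCoupled D m) (w : V → ℝ) (hw : ∀ v, 0 < w v) :
    (∑ u, ∑ v, m u v * (Real.log (w v) + Real.log (q u) - Real.log (m u v))) + Real.log 3 ≤
      ∑ v, q v * Real.log (∑ x, w x - w v) := by
  obtain ⟨P, hP0, hP1, hrow, hcol⟩ := hc
  have hT : ∀ u v x y, 0 < m u v → (fun v x => (∀ z, ¬ (D x z ∧ D z v)) ∧ ¬ D x v) v x →
      0 < m x y → (fun y u => ∀ z, ¬ (D u z ∧ D z y)) y u → Non D u x ∧ Non D v y := by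
    intro u v x y h1 h2 h3 h4
    exact non_of_ringed D (hsupp _ _ h1.ne') (hsupp _ _ h3.ne') ⟨h4, h2.1, h2.2⟩
  have b1 := gibbs_out D m q w hm hsupp htail hw
  have b2 := gibbs_in D m q w hm hsupp htail hhead hw
  have b3 := stat_out m q w (fun v x => (∀ z, ¬ (D x z ∧ D z v)) ∧ ¬ D x v)
    (fun y u => ∀ z, ¬ (D u z ∧ D z y)) (Non D) hm hsum htail hhead hT P hP0
    (fun u v x y h => ⟨⟨(hP1 _ _ _ _ h).2.1, (hP1 _ _ _ _ h).2.2⟩, (hP1 _ _ _ _ h).1⟩)
    hrow hcol hw
  have hq : ∀ v, 0 ≤ q v := by
    intro v
    rw [← htail]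
    exact sum_nonneg (fun x _ => hm v x)
  have hsq : ∑ v, q v = 1 := by
    rw [← hsum]
    exact sum_congr rfl (fun u _ => (htail u).symm)
  have hpos : ∀ (A : V → Prop) (x : V), A x → 0 < ∑ y, (if A y then w y else 0) := by
    intro A x h
    have h1 : (if A x then w x else 0) ≤ ∑ y, (if A y then w y else 0) :=
      single_le_sum (f := fun y => if A y then w y else 0) (fun y _ => by
        split_ifs
        · exact (hw y).le
        · exact le_rfl) (mem_univ x)
    rw [if_pos h] at h1
    exact lt_of_lt_of_le (hw x) h1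
  have hpt : ∀ v, q v * Real.log (∑ x, if D v x then w x else 0) +
      q v * Real.log (∑ x, if D x v then w x else 0) +
      q v * Real.log (∑ x, if Non D v x then w x else 0) ≤
      q v * (3 * (Real.log (∑ x, w x - w v) - Real.log 3)) := by
    intro v
    rcases eq_or_lt_of_le (hq v) with h0 | h0
    · rw [← h0]; simp
    · have h1 : ∃ x, m v x ≠ 0 := by
        by_contra hcc
        push Not at hcc
        rw [← htail] at h0
        rw [sum_congr rfl (fun x _ => hcc x), sum_const_zero] at h0
        exact lt_irrefl _ h0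
      have h2 : ∃ x, m x v ≠ 0 := by
        by_contra hcc
        push Not at hcc
        rw [← hhead] at h0
        rw [sum_congr rfl (fun x _ => hcc x), sum_const_zero] at h0
        exact lt_irrefl _ h0
      obtain ⟨x1, hx1⟩ := h1
      obtain ⟨x2, hx2⟩ := h2
      have h3 : ∃ x, Non D v x := by
        have h4 : ∑ x, ∑ y, P v x1 x y ≠ 0 := by
          rw [hrow]; exact hx1
        obtain ⟨x, -, hx⟩ := exists_ne_zero_of_sum_ne_zero h4
        obtain ⟨y, -, hy⟩ := exists_ne_zero_of_sum_ne_zero hx
        have h5 : m x y ≠ 0 := by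
          intro h6
          rw [← hcol x y] at h6
          have h7 : P v x1 x y ≤ ∑ v', P v v' x y :=
            single_le_sum (f := fun v' => P v v' x y) (fun v' _ => hP0 _ _ _ _) (mem_univ x1)
          have h8 : ∑ v', P v v' x y ≤ ∑ u', ∑ v', P u' v' x y :=
            single_le_sum (f := fun u' => ∑ v', P u' v' x y)
              (fun u' _ => sum_nonneg (fun v' _ => hP0 _ _ _ _)) (mem_univ v)
          have h9 : 0 < P v x1 x y := lt_of_le_of_ne (hP0 _ _ _ _) (Ne.symm hy)
          linarith
        exact ⟨x, (non_of_ringed D (hsupp _ _ hx1) (hsupp _ _ h5) (hP1 _ _ _ _ hy)).1⟩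
      obtain ⟨x3, hx3⟩ := h3
      have g1 := hpos (fun x => D v x) x1 (hsupp _ _ hx1)
      have g2 := hpos (fun x => D x v) x2 (hsupp _ _ hx2)
      have g3 := hpos (fun x => Non D v x) x3 hx3
      have g4 : (∑ x, if D v x then w x else 0) + (∑ x, if D x v then w x else 0) +
          (∑ x, if Non D v x then w x else 0) ≤ ∑ x, w x - w v := by
        have e1 : ∑ x, w x - w v = ∑ x, (if x = v then 0 else w x) := by
          have e2 : ∑ x, w x = ∑ x, ((if x = v then 0 else w x) + (if x = v then w x else 0)) := by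
            apply sum_congr rfl
            intro x _
            by_cases hx : x = v
            · simp [hx]
            · simp [hx]
          rw [e2, sum_add_distrib, sum_ite_eq' univ v (fun x => w x), if_pos (mem_univ v)]
          ring
        rw [e1, ← sum_add_distrib, ← sum_add_distrib]
        apply sum_le_sum
        intro x _
        by_cases hx : x = v
        · subst hx
          have n1 : ¬ Non D x x := fun h => h.1 rfl
          simp [hloop x, n1]
        · rw [if_neg hx]
          by_cases d1 : D v x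
          · have d2 : ¬ D x v := hdig _ _ d1
            have d3 : ¬ Non D v x := fun h => h.2.1 d1
            simp [d1, d2, d3]
          · by_cases d2 : D x v
            · have d3 : ¬ Non D v x := fun h => h.2.2 d2
              simp [d1, d2, d3]
            · rw [if_neg d1, if_neg d2]
              split_ifs
              · simp
              · simp only [add_zero]
                exact (hw x).le
      have g5 := log_three g1 g2 g3 g4
      have g6 := mul_le_mul_of_nonneg_left g5 h0.le
      linarith
  have hall := sum_le_sum (fun v (_ : v ∈ univ) => hpt v)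
  rw [sum_add_distrib, sum_add_distrib] at hall
  have e1 : ∑ v, q v * (3 * (Real.log (∑ x, w x - w v) - Real.log 3)) =
      3 * ∑ v, q v * Real.log (∑ x, w x - w v) - 3 * Real.log 3 := by
    have e2 : ∀ v, q v * (3 * (Real.log (∑ x, w x - w v) - Real.log 3)) =
        3 * (q v * Real.log (∑ x, w x - w v)) - q v * (3 * Real.log 3) := fun v => by ring
    rw [sum_congr rfl (fun v _ => e2 v), sum_sub_distrib, ← mul_sum, ← sum_mul, hsq, one_mul]
  rw [e1] at hall
  linarith

/-- random walk: outdegree form -/
theorem outdegree {V : Type} [Fintype V] (D : V → V → Prop) (hloop : ∀ v, ¬ D v v)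
    (hdig : ∀ u v, D u v → ¬ D v u) (w : V → ℝ) (hw : ∀ v, 0 < w v) (q : V → ℝ)
    (hq : ∀ v, 0 ≤ q v) (hsq : ∑ v, q v = 1) (hout : ∀ u, 0 < q u → ∃ v, D u v)
    (hstat : ∀ v, ∑ u, (if D u v then q u * w v / (∑ x, if D u x then w x else 0) else 0) = q v)
    (hc : SelfCoupled D
      (fun u v => if D u v then q u * w v / (∑ x, if D u x then w x else 0) else 0)) :
    ∃ x, 0 < q x ∧ 3 * (∑ y, if D x y then w y else 0) ≤ ∑ y, w y - w x := by
  set W : V → ℝ := fun u => ∑ x, (if D u x then w x else 0) with hW
  have hW0 : ∀ u, 0 ≤ W u := by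
    intro u
    apply sum_nonneg
    intro x _
    split_ifs
    · exact (hw x).le
    · exact le_rfl
  have hWpos : ∀ u v, D u v → 0 < W u := by
    intro u v h
    have h1 : (if D u v then w v else 0) ≤ W u :=
      single_le_sum (f := fun x => if D u x then w x else 0) (fun y _ => by
        split_ifs
        · exact (hw y).le
        · exact le_rfl) (mem_univ v)
    rw [if_pos h] at h1
    exact lt_of_lt_of_le (hw v) h1
  let m : V → V → ℝ := fun u v => if D u v then q u * w v / W u else 0
  have hm : ∀ u v, 0 ≤ m u v := by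
    intro u v
    simp only [m]
    split_ifs
    · exact div_nonneg (mul_nonneg (hq u) (hw v).le) (hW0 u)
    · exact le_rfl
  have hsupp : ∀ u v, m u v ≠ 0 → D u v := by
    intro u v h
    by_contra h1
    apply h
    simp only [m]
    rw [if_neg h1]
  have htail : ∀ u, ∑ v, m u v = q u := by
    intro u
    have h1 : ∀ v, m u v = (q u / W u) * (if D u v then w v else 0) := by
      intro v
      simp only [m]
      split_ifs
      · ring
      · ring
    rw [sum_congr rfl (fun v _ => h1 v), ← mul_sum]
    change q u / W u * W u = q u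
    rcases eq_or_lt_of_le (hq u) with h0 | h0
    · rw [← h0]; simp
    · obtain ⟨v, hv⟩ := hout u h0
      exact div_mul_cancel₀ _ (hWpos u v hv).ne'
  have hsum : ∑ u, ∑ v, m u v = 1 := by
    rw [sum_congr rfl (fun u _ => htail u)]
    exact hsq
  have key := stationary D hloop hdig m hm hsupp hsum q htail hstat hc w hw
  have e1 : (∑ u, ∑ v, m u v * (Real.log (w v) + Real.log (q u) - Real.log (m u v))) =
      ∑ u, q u * Real.log (W u) := by
    apply sum_congr rfl
    intro u _
    rw [← htail u, sum_mul]
    apply sum_congr rfl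
    intro v _
    rw [htail u]
    rcases eq_or_lt_of_le (hm u v) with h0 | h0
    · rw [← h0]; simp
    · have h1 := hsupp _ _ h0.ne'
      have h2 : m u v = q u * w v / W u := by
        simp only [m]
        rw [if_pos h1]
      have h3 : 0 < q u := by
        rcases eq_or_lt_of_le (hq u) with h4 | h4
        · rw [h2, ← h4] at h0
          simp at h0
        · exact h4
      have h5 := hWpos u v h1
      have h6 : Real.log (m u v) = Real.log (q u) + Real.log (w v) - Real.log (W u) := by
        rw [h2, Real.log_div (mul_pos h3 (hw v)).ne' h5.ne', Real.log_mul h3.ne' (hw v).ne']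
      rw [h6]
      ring
  rw [e1] at key
  by_contra hcon
  push Not at hcon
  have hlt : ∑ v, q v * Real.log (∑ x, w x - w v) < ∑ u, q u * (Real.log (W u) + Real.log 3) := by
    apply sum_lt_sum
    · intro v _
      rcases eq_or_lt_of_le (hq v) with h0 | h0
      · rw [← h0]; simp
      · apply mul_le_mul_of_nonneg_left _ h0.le
        obtain ⟨x, hx⟩ := hout v h0
        have h1 := hWpos v x hx
        have h2 := hcon v h0
        rcases lt_or_ge 0 (∑ y, w y - w v) with h3 | h3
        · have h4 : Real.log (∑ y, w y - w v) ≤ Real.log (3 * W v) :=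
            Real.log_le_log h3 h2.le
          rw [Real.log_mul (by norm_num) h1.ne'] at h4
          linarith
        · exfalso
          have h4 : w x ≤ ∑ y, w y - w v := by
            have h5 : w x + w v ≤ ∑ y, w y := by
              have hne : x ≠ v := by
                rintro rfl
                exact hloop _ hx
              have h6 : ∑ y ∈ ({x, v} : Finset V), w y ≤ ∑ y, w y :=
                sum_le_sum_of_subset_of_nonneg (subset_univ _) (fun y _ _ => (hw y).le)
              rw [sum_pair hne] at h6
              exact h6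
            linarith
          have := hw x
          linarith
    · have h1 : ∃ v, 0 < q v := by
        by_contra h2
        push Not at h2
        have h3 : ∀ v, q v = 0 := fun v => le_antisymm (h2 v) (hq v)
        rw [sum_congr rfl (fun v _ => h3 v), sum_const_zero] at hsq
        norm_num at hsq
      obtain ⟨v, h0⟩ := h1
      refine ⟨v, mem_univ v, ?_⟩
      apply mul_lt_mul_of_pos_left _ h0
      obtain ⟨x, hx⟩ := hout v h0
      have h1 := hWpos v x hx
      have h2 := hcon v h0
      have h3 : 0 < ∑ y, w y - w v := by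
        have h5 : w x + w v ≤ ∑ y, w y := by
          have hne : x ≠ v := by
            rintro rfl
            exact hloop _ hx
          have h6 : ∑ y ∈ ({x, v} : Finset V), w y ≤ ∑ y, w y :=
            sum_le_sum_of_subset_of_nonneg (subset_univ _) (fun y _ _ => (hw y).le)
          rw [sum_pair hne] at h6
          exact h6
        have := hw x
        linarith
      have h4 : Real.log (∑ y, w y - w v) < Real.log (3 * W v) := Real.log_lt_log h3 h2
      rw [Real.log_mul (by norm_num) h1.ne'] at h4
      linarith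
  have e2 : ∑ u, q u * (Real.log (W u) + Real.log 3) = ∑ u, q u * Real.log (W u) + Real.log 3 := by
    have e3 : ∀ u, q u * (Real.log (W u) + Real.log 3) =
        q u * Real.log (W u) + q u * Real.log 3 := fun u => by ring
    rw [sum_congr rfl (fun u _ => e3 u), sum_add_distrib, ← sum_mul, hsq, one_mul]
  rw [e2] at hlt
  linarith

/-- product weights -/
theorem product {V : Type} [Fintype V] (D : V → V → Prop) (hloop : ∀ v, ¬ D v v)
    (hdig : ∀ u v, D u v → ¬ D v u) (a b : V → ℝ) (ha : ∀ v, 0 ≤ a v) (hb : ∀ v, 0 ≤ b v)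
    (hc : SelfCoupled D (fun u v => if D u v then a u * b v else 0)) :
    (∑ u, ∑ v, if D u v then a u * b v else 0) ^ 2 ≤
      ((∑ v, a v) ^ 2 - ∑ v, a v ^ 2 - 2 * ∑ u, ∑ v, (if D u v then a u * a v else 0)) *
        ((∑ v, b v) ^ 2 - ∑ v, b v ^ 2 - 2 * ∑ u, ∑ v, (if D u v then b u * b v else 0)) := by
  obtain ⟨P, hP0, hP1, hrow, hcol⟩ := hc
  have key := ring4 D D (fun v x => (∀ z, ¬ (D x z ∧ D z v)) ∧ ¬ D x v)
    (fun y u => ∀ z, ¬ (D u z ∧ D z y)) (Non D) (Non D)
    (fun u v x y h1 h2 h3 h4 => non_of_ringed D h1 h3 ⟨h4, h2.1, h2.2⟩)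
    a b a b ha hb ha hb P hP0
    (fun u v x y h => ⟨⟨(hP1 _ _ _ _ h).2.1, (hP1 _ _ _ _ h).2.2⟩, (hP1 _ _ _ _ h).1⟩)
    hrow hcol
  have e : ∀ f : V → ℝ, ∑ u, ∑ x, (if Non D u x then f u * f x else 0) =
      (∑ v, f v) ^ 2 - ∑ v, f v ^ 2 - 2 * ∑ u, ∑ v, (if D u v then f u * f v else 0) := by
    intro f
    have e1 : (∑ v, f v) ^ 2 = ∑ u, ∑ v, f u * f v := by
      rw [sq, sum_mul_sum]
    have e2 : ∑ v, f v ^ 2 = ∑ u, ∑ v, (if u = v then f u * f v else 0) := by
      apply sum_congr rfl
      intro u _
      rw [sum_ite_eq univ u (fun v => f u * f v), if_pos (mem_univ u)]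
      ring
    have e3 : ∑ u, ∑ v, (if D v u then f u * f v else 0) =
        ∑ u, ∑ v, (if D u v then f u * f v else 0) := by
      rw [sum_comm]
      apply sum_congr rfl
      intro u _
      apply sum_congr rfl
      intro v _
      rw [mul_comm (f v)]
    have e4 : ∀ u v, (if Non D u v then f u * f v else 0) = f u * f v -
        (if u = v then f u * f v else 0) - (if D u v then f u * f v else 0) -
        (if D v u then f u * f v else 0) := by
      intro u v
      by_cases h1 : u = v
      · subst h1
        have n1 : ¬ Non D u u := fun h => h.1 rfl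
        simp [n1, hloop u]
      · by_cases d1 : D u v
        · have d2 : ¬ D v u := hdig _ _ d1
          have d3 : ¬ Non D u v := fun h => h.2.1 d1
          simp [h1, d1, d2, d3]
        · by_cases d2 : D v u
          · have d3 : ¬ Non D u v := fun h => h.2.2 d2
            simp [h1, d1, d2, d3]
          · have d3 : Non D u v := ⟨h1, d1, d2⟩
            simp [h1, d1, d2, d3]
    simp only [e4, sum_sub_distrib]
    rw [e1, e2, e3]
    ring
  rw [e a, e b] at key
  exact key

/-- opposite arcs of directed 4-cycles -/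
theorem four_cycles {V : Type} [Fintype V] (D : V → V → Prop) (hdig : ∀ u v, D u v → ¬ D v u)
    (htri : ∀ u v x, D u v → D v x → ¬ D x u) (m : V → V → ℝ) (P : V → V → V → V → ℝ)
    (hP0 : ∀ u v x y, 0 ≤ P u v x y)
    (hP1 : ∀ u v x y, P u v x y ≠ 0 → D u v ∧ D v x ∧ D x y ∧ D y u)
    (hrow : ∀ u v, ∑ x, ∑ y, P u v x y = m u v)
    (hcol : ∀ x y, ∑ u, ∑ v, P u v x y = m x y) : SelfCoupled D m := by
  refine ⟨P, hP0, ?_, hrow, hcol⟩
  intro u v x y h
  obtain ⟨h1, h2, h3, h4⟩ := hP1 u v x y h
  refine ⟨?_, ?_, hdig _ _ h2⟩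
  · rintro z ⟨h5, h6⟩
    exact htri _ _ _ h5 h6 h4
  · rintro z ⟨h5, h6⟩
    exact htri _ _ _ h5 h6 h2

end Pool.Agent.Helper61_ENT
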